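import Mathlib.LinearAlgebra.FiniteDimensional.Defs
import Mathlib.LinearAlgebra.Dimension.Constructions
import Mathlib.Analysis.Complex.Basic

/-!
# Linear relations with complex coefficients between vectors with a rational structure
-/

set_option autoImplicit false

namespace Pool.Agent.Lib.MP_361a6f_ag.FL.E.Inj

/-- complex numbers in terms of numbers which are linearly independent over `ℚ` -/
theorem coeff {n : ℕ} (a : Fin n → ℂ) : ∃ (m : ℕ) (b : Fin m → ℂ) (q : Fin n → Fin m → ℚ),
    (∀ c : Fin m → ℚ, ∑ k, b k * (c k : ℂ) = 0 → c = 0) ∧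
      ∀ i, a i = ∑ k, b k * (q i k : ℂ) := by
  let S : Submodule ℚ ℂ := Submodule.span ℚ (Set.range a)
  have : FiniteDimensional ℚ S := FiniteDimensional.span_of_finite ℚ (Set.finite_range a)
  let B := Module.finBasis ℚ S
  refine ⟨Module.finrank ℚ S, fun k => (B k : ℂ),
    fun i => B.repr ⟨a i, Submodule.subset_span ⟨i, rfl⟩⟩, fun c hc => ?_, fun i => ?_⟩
  · have h1 : ∑ k, c k • (B k : ℂ) = 0 := by
      rw [← hc]
      refine Finset.sum_congr rfl fun k _ => ?_
      rw [Rat.smul_def, mul_comm]
    have h2 : ∑ k, c k • B k = 0 := by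
      apply Subtype.ext
      rw [Submodule.coe_zero, ← h1, Submodule.coe_sum]
      rfl
    funext k
    exact (Fintype.linearIndependent_iff.1 B.linearIndependent) c h2 k
  · have h1 := B.sum_repr ⟨a i, Submodule.subset_span ⟨i, rfl⟩⟩
    have h2 := congrArg (Subtype.val : S → ℂ) h1
    rw [Submodule.coe_sum] at h2
    refine h2.symm.trans (Finset.sum_congr rfl fun k _ => ?_)
    rw [mul_comm, ← Rat.smul_def]
    rfl

section mod

variable {V : Type*} [AddCommGroup V] [Module ℂ V]

/-- If subfamilies that are independent over `ℚ` are independent over `ℂ` then complex relations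
may be conjugated. -/
theorem conj_of_indep {n : ℕ} (y : Fin n → V)
    (h : ∀ (m : ℕ) (e : Fin m → Fin n), (∀ q : Fin m → ℚ, ∑ k, (q k : ℂ) • y (e k) = 0 → q = 0) →
      ∀ a : Fin m → ℂ, ∑ k, a k • y (e k) = 0 → a = 0)
    (a : Fin n → ℂ) (ha : ∑ i, a i • y i = 0) : ∑ i, starRingEnd ℂ (a i) • y i = 0 := by
  classical
  let : Module ℚ V := Module.compHom V (algebraMap ℚ ℂ)
  have hsm : ∀ (q : ℚ) (v : V), q • v = (q : ℂ) • v := fun _ _ => rfl
  obtain ⟨b, hb, hs, hl⟩ := exists_linearIndependent ℚ (Set.range y)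
  have : Finite b := ((Set.finite_range y).subset hb).to_subtype
  obtain ⟨m, ⟨ε⟩⟩ := Finite.exists_equiv_fin b
  choose e0 he0 using fun v : b => hb v.2
  let e : Fin m → Fin n := fun k => e0 (ε.symm k)
  have he : ∀ k, y (e k) = ((ε.symm k : b) : V) := fun k => he0 _
  have hl' : LinearIndependent ℚ fun k => y (e k) := by
    have h1 : (fun k => y (e k)) = (Subtype.val : b → V) ∘ ε.symm := funext he
    rw [h1]
    exact hl.comp _ ε.symm.injective
  have hspan : ∀ i, ∃ q : Fin m → ℚ, y i = ∑ k, (q k : ℂ) • y (e k) := by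
    intro i
    have h1 : y i ∈ Submodule.span ℚ (Set.range fun k => y (e k)) := by
      have h2 : (Set.range fun k => y (e k)) = b := by
        ext v
        constructor
        · rintro ⟨k, rfl⟩
          show y (e k) ∈ b
          rw [he]
          exact (ε.symm k).2
        · intro hv
          refine ⟨ε ⟨v, hv⟩, ?_⟩
          show y (e (ε ⟨v, hv⟩)) = v
          rw [he, Equiv.symm_apply_apply]
      rw [h2, hs]
      exact Submodule.subset_span ⟨i, rfl⟩
    obtain ⟨q, hq⟩ := (Submodule.mem_span_range_iff_exists_fun ℚ).1 h1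
    exact ⟨q, hq.symm⟩
  choose q hq using hspan
  have h1 : ∀ a : Fin n → ℂ, ∑ i, a i • y i = ∑ k, (∑ i, a i * (q i k : ℂ)) • y (e k) := by
    intro a
    simp only [Finset.sum_smul]
    rw [Finset.sum_comm]
    refine Finset.sum_congr rfl fun i _ => ?_
    conv_lhs => rw [hq i]
    rw [Finset.smul_sum]
    refine Finset.sum_congr rfl fun k _ => ?_
    rw [smul_smul]
  have h2 := h m e (fun c hc => funext fun k =>
    (Fintype.linearIndependent_iff.1 hl') c (by simpa only [hsm] using hc) k)
    (fun k => ∑ i, a i * (q i k : ℂ)) (by rw [← h1, ha])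
  rw [h1]
  refine Finset.sum_eq_zero fun k _ => ?_
  have h3 : ∑ i, starRingEnd ℂ (a i) * (q i k : ℂ) = starRingEnd ℂ (∑ i, a i * (q i k : ℂ)) := by
    rw [map_sum]
    refine Finset.sum_congr rfl fun i _ => ?_
    rw [map_mul]
    congr 1
    exact (Complex.conj_ofReal (q i k : ℝ)).symm
  rw [h3, congrFun h2 k]
  simp

/-- If the numbers `M i y` are rational and rational combinations of the vectors `z i` vanish if the
combinations of the rows of `M` vanish then the same is true for complex combinations, provided the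
`z i` are linearly independent over `ℚ`. -/
theorem indep_of_rat {Y : Type*} {n : ℕ} (M : Fin n → Y → ℚ)
    (h : ∀ q : Fin n → ℚ, (∀ y, ∑ i, q i * M i y = 0) → q = 0) (a : Fin n → ℂ)
    (ha : ∀ y, ∑ i, a i * (M i y : ℂ) = 0) : a = 0 := by
  obtain ⟨m, b, q, hb, hq⟩ := coeff a
  have h1 : ∀ k, (fun i => q i k) = 0 := by
    intro k
    refine h _ fun y => ?_
    have h2 : (fun k => ∑ i, q i k * M i y) = 0 := by
      refine hb _ ?_
      rw [← ha y]
      simp only [hq, Rat.cast_sum, Rat.cast_mul, Finset.mul_sum, Finset.sum_mul]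
      rw [Finset.sum_comm]
      refine Finset.sum_congr rfl fun i _ => Finset.sum_congr rfl fun k _ => ?_
      ring
    exact congrFun h2 k
  funext i
  rw [hq i]
  refine Finset.sum_eq_zero fun k _ => ?_
  have h3 := congrFun (h1 k) i
  simp only [Pi.zero_apply] at h3
  rw [h3, Rat.cast_zero, mul_zero]

end mod

end Pool.Agent.Lib.MP_361a6f_ag.FL.E.Inj
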