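import Pool.Agent.Lib.MP_361a6f_ag.FL.E.AsmN

/-!
# The matrices of endomorphisms of `X'` on `H^1`
-/

open CategoryTheory AlgebraicGeometry MonoidalCategory CartesianMonoidalCategory

universe u u' v w w'

set_option autoImplicit false
set_option linter.unusedSectionVars false

namespace Pool.Agent.Lib.MP_361a6f_ag.FL.E

open Pool.Agent.Lib.MP_361a6f_ag.H3 Pool.Agent.Lib.MP_361a6f_ag.SQ
  Pool.Agent.Lib.MP_361a6f_ag.PP

namespace Inj

section mats

variable {k : Type u} [Field k] {W : CohomologyData.{u, 0, w} k ℂ} {k' : Type u'} [Field k']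
  {W' : CohomologyData.{u', 0, w'} k' ℂ} {𝒱 : VarietyClass k} {𝒱' : VarietyClass k'}

variable (H : Host W 𝒱 1) {X' : Sch k'} {ξ' : W'.coh X'} (S : Spc W W' H.X X' H.ξ ξ')
  (hW' : IsWeilCohomology W' 𝒱') (hX' : 𝒱'.mem X' (H.n 0))
  (hc : ∀ x ∈ W.gr (H.X 0) 0, ∃ c : ℂ, x = c • (1 : W.coh (H.X 0)))
  (hp : PositiveDivisor W (H.X 0) (H.n 0) (H.ξ 0))

/-- the class of degree one on `X'` with given coordinates -/
noncomputable def v1 : (Sub H.D (0, 1) → ℂ) →ₗ[ℂ] W'.coh X' := vec1 (host2 H S hW' hX')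

include hc hp in
theorem pull_v1 {f : X' ⟶ X'} {n : ℕ} (hn : 0 < n)
    (hf : W'.pull f ξ' = (((n : ℚ) : ℂ)) • ξ') (v : Sub H.D (0, 1) → ℂ) :
    W'.pull f (v1 H S hW' hX' v) = sq n • v1 H S hW' hX' ((FM H S hW' hX' f n).mulVec v) := by
  have h1 : (W'.pull f (v1 H S hW' hX' v) : W'.coh X')
      = v1 H S hW' hX' ((sq n • FM H S hW' hX' f n).mulVec v) :=
    frob_vec1 (host2 H S hW' hX') (sq_ne hn) (symH H S hW' hX' hc hp hf)
      (FrH H S hW' hX' f (.leaf 0)) rfl v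
  rw [h1, Matrix.smul_mulVec, map_smul]

theorem v1_inj {v v' : Sub H.D (0, 1) → ℂ}
    (h : v1 H S hW' hX' v = v1 H S hW' hX' v') : v = v' := by
  have h1 := congrArg (crd1 (host2 H S hW' hX')) h
  have h2 : ∀ v : Sub H.D (0, 1) → ℂ, crd1 (host2 H S hW' hX') (v1 H S hW' hX' v) = v :=
    fun v => crd1_vec1 (host2 H S hW' hX') v
  rwa [h2, h2] at h1

theorem v1_gr (v : Sub H.D (0, 1) → ℂ) : v1 H S hW' hX' v ∈ W'.gr X' 1 :=
  vec1_gr (host2 H S hW' hX') v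

theorem sq_one : sq 1 = 1 := by
  unfold sq
  simp

include hc hp in
/-- the matrix of a composition -/
theorem FM_mul {f g : X' ⟶ X'} {n m : ℕ} (hn : 0 < n) (hm : 0 < m)
    (hf : W'.pull f ξ' = (((n : ℚ) : ℂ)) • ξ') (hg : W'.pull g ξ' = (((m : ℚ) : ℂ)) • ξ')
    {r : ℕ} (hr : 0 < r) (hrs : sq r = sq n * sq m)
    (hfg : W'.pull (f ≫ g) ξ' = (((r : ℚ) : ℂ)) • ξ') :
    FM H S hW' hX' (f ≫ g) r = FM H S hW' hX' f n * FM H S hW' hX' g m := by
  refine Matrix.mulVec_injective (funext fun v => ?_)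
  refine v1_inj H S hW' hX' ?_
  have h1 := pull_v1 H S hW' hX' hc hp hr hfg v
  rw [W'.pull_comp, pull_v1 H S hW' hX' hc hp hm hg v, map_smul,
    pull_v1 H S hW' hX' hc hp hn hf, smul_smul, mul_comm (sq m), ← hrs] at h1
  rw [← Matrix.mulVec_mulVec]
  exact (smul_right_injective _ (sq_ne hr) h1).symm

include hc hp in
theorem FM_id {f : X' ⟶ X'} (hf : f = 𝟙 X') : FM H S hW' hX' f 1 = 1 := by
  subst hf
  refine Matrix.mulVec_injective (funext fun v => ?_)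
  refine v1_inj H S hW' hX' ?_
  have h1 := pull_v1 H S hW' hX' hc hp (f := 𝟙 X') one_pos (by
    rw [W'.pull_id]
    simp) v
  rw [W'.pull_id, sq_one, one_smul] at h1
  rw [Matrix.one_mulVec]
  exact h1.symm

include hc hp in
theorem iota_sq {ι : X' ⟶ X'} (hι : W'.pull ι ξ' = ((((1 : ℕ) : ℚ) : ℂ)) • ξ')
    (h : ι ≫ ι = 𝟙 X') : FM H S hW' hX' ι 1 * FM H S hW' hX' ι 1 = 1 := by
  rw [← FM_mul H S hW' hX' hc hp one_pos one_pos hι hι one_pos (by rw [sq_one, mul_one])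
    (by rw [W'.pull_comp, hι, map_smul, hι]; simp)]
  exact FM_id H S hW' hX' hc hp h

include hc hp in
theorem iota_neg {f ι : X' ⟶ X'} {q : ℕ} (hq : 0 < q)
    (hι : W'.pull ι ξ' = ((((1 : ℕ) : ℚ) : ℂ)) • ξ')
    (hf : W'.pull f ξ' = (((q : ℚ) : ℂ)) • ξ')
    (ht : ∀ x ∈ W'.gr X' 1, W'.pull ι x = (-1 : ℂ) • x → W'.pull f x = sq q • x)
    (v : Sub H.D (0, 1) → ℂ) (hv : (FM H S hW' hX' ι 1).mulVec v = -v) :
    (FM H S hW' hX' f q).mulVec v = v := by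
  refine v1_inj H S hW' hX' ?_
  have h1 := pull_v1 H S hW' hX' hc hp one_pos hι v
  rw [sq_one, one_smul, hv, map_neg] at h1
  have h2 := ht _ (v1_gr H S hW' hX' v) (h1.trans (neg_one_smul ℂ _).symm)
  rw [pull_v1 H S hW' hX' hc hp hq hf] at h2
  exact smul_right_injective _ (sq_ne hq) h2

include hc hp in
theorem iota_pos {ι : X' ⟶ X'} (hι : W'.pull ι ξ' = ((((1 : ℕ) : ℚ) : ℂ)) • ξ')
    (v : Sub H.D (0, 1) → ℂ) (hv : (FM H S hW' hX' ι 1).mulVec v = v) :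
    W'.pull ι (v1 H S hW' hX' v) = v1 H S hW' hX' v := by
  rw [pull_v1 H S hW' hX' hc hp one_pos hι v, sq_one, one_smul, hv]

include hc hp in
/-- the eigenvalues -/
theorem eig_pull {f : X' ⟶ X'} {n : ℕ} (hn : 0 < n)
    (hf : W'.pull f ξ' = (((n : ℚ) : ℂ)) • ξ') {μ : ℂ}
    (hμ : Module.End.HasEigenvalue (Matrix.toLin' (FM H S hW' hX' f n)) μ) :
    ∃ x ∈ W'.gr X' 1, x ≠ 0 ∧ W'.pull f x = (sq n * μ) • x := by
  obtain ⟨v, hv⟩ := hμ.exists_hasEigenvector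
  have hv1 : (FM H S hW' hX' f n).mulVec v = μ • v := hv.apply_eq_smul
  refine ⟨v1 H S hW' hX' v, v1_gr H S hW' hX' v, ?_, ?_⟩
  · intro h0
    exact hv.2 (v1_inj H S hW' hX' (h0.trans (map_zero _).symm))
  · rw [pull_v1 H S hW' hX' hc hp hn hf, hv1, map_smul, smul_smul]

include hc hp in
/-- eigenvectors -/
theorem FM_eig {f : X' ⟶ X'} {n : ℕ} (hn : 0 < n)
    (hf : W'.pull f ξ' = (((n : ℚ) : ℂ)) • ξ') {a : ℂ} {v : Sub H.D (0, 1) → ℂ}
    (h : W'.pull f (v1 H S hW' hX' v) = a • v1 H S hW' hX' v) :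
    (FM H S hW' hX' f n).mulVec v = ((sq n)⁻¹ * a) • v := by
  rw [pull_v1 H S hW' hX' hc hp hn hf v] at h
  refine v1_inj H S hW' hX' ?_
  rw [map_smul, mul_smul, ← h, smul_smul, inv_mul_cancel₀ (sq_ne hn), one_smul]

/-- the specialisation of a class of degree one -/
theorem s_vec (v : Sub H.D (0, 1) → ℂ) : S.s0 (vec1 H v) = v1 H S hW' hX' v := by
  show S.s0 (∑ i, v i • H.e 0 i.1) = ∑ i, v i • (host2 H S hW' hX').e 0 (i : H.I)
  rw [map_sum]
  refine Finset.sum_congr rfl fun i _ => ?_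
  rw [map_smul]
  rfl

/-- formal products with a given number of factors -/
theorem exists_size : ∀ m : ℕ, 0 < m → ∃ P : Prd 1, P.size = m
  | 1, _ => ⟨.leaf 0, rfl⟩
  | m + 2, _ => by
    obtain ⟨P, hP⟩ := exists_size (m + 1) (Nat.succ_pos m)
    exact ⟨.prod P (.leaf 0), by
      show P.size + 1 = m + 2
      rw [hP]⟩

include hc hp in
/-- the algebraic tensors of one length are fixed by an endomorphism that fixes the images of the
algebraic classes of one codimension -/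
theorem fix_len {f : X' ⟶ X'} (hf : W'.pull f ξ' = ((((1 : ℕ) : ℚ) : ℂ)) • ξ') {l : ℕ} (hl : 0 < l)
    (hfix : ∀ (P : Prd 1) (z : W.coh (P.obj H.X)), z ∈ W.alg (P.obj H.X) l →
      frH W' f P (S.s P z) = S.s P z) {L : ℕ} (hL : L = 2 * l) (u : Ten (Sub H.D (0, 1)) L)
    (hu : At1 H L u) : gT (FM H S hW' hX' f 1) u = u := by
  obtain ⟨P, hP⟩ := exists_size L (by omega)
  subst hP
  obtain ⟨z, hz, h1⟩ := PosL.at_word H (gr ge H) (ge H) P (fun _ => (0, 1))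
    (fun i => Subsingleton.elim _ _) l (by
      show ∑ _i : Fin P.size, 1 = 2 * l
      simp [hL]) hu (fun w hw => ext0_off u hw)
  have e := tc_s H S hW' hX' (ge H) (ge (host2 H S hW' hX')) P z
  have h3 : ∀ x : W'.coh (P.obj fun _ => X'), x = ((((1 : ℕ) : ℚ) : ℂ)) ^ l • x :=
    fun x => by simp
  have h2 := gam_fix (host2 H S hW' hX') (sq_ne one_pos) (sq_sq 1) (symH H S hW' hX' hc hp hf)
    (extH H S hW' hX' f) P (l := l) (z := S.s P z)
    (hW'.alg_gr ((host2 H S hW' hX').memP P) (S.alg P l z hz)) ((hfix P z hz).trans (h3 _))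
  have h4 : gT (PhiF.gam (host2 H S hW' hX') (sq 1) (FrH H S hW' hX' f) : Matrix H.I H.I ℂ)
      (ext0 H.D (0, 1) u) = ext0 H.D (0, 1) u := by
    rw [← h1]
    exact (congrArg (gT (PhiF.gam (host2 H S hW' hX') (sq 1) (FrH H S hW' hX' f) :
      Matrix H.I H.I ℂ)) e.symm).trans (h2.trans e)
  exact fix_sub (gam_blocks (host2 H S hW' hX') (symH H S hW' hX' hc hp hf))
    (At := fun _ u => gT (PhiF.gam (host2 H S hW' hX') (sq 1) (FrH H S hW' hX' f) :
      Matrix H.I H.I ℂ) u = u) (fun _ _ h => h) _ u h4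

end mats

end Inj

end Pool.Agent.Lib.MP_361a6f_ag.FL.E
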