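import Pool.Agent.Lib.MP_361a6f_ag.FL.E.Rot
import Pool.Agent.Lib.MP_361a6f_ag.FL.E.NSys

/-!
# Theorem I in coordinates: conjugate combinations of the members

If complex linear relations between the members of length `L` remain true when the coefficients are
replaced by their complex conjugates then the form is nondegenerate on the complex span of the
members of length `L`.
-/

open Matrix
open scoped ComplexOrder

set_option autoImplicit false
set_option linter.unusedSectionVars false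

namespace Pool.Agent.Lib.MP_361a6f_ag.FL.E.Inj

open Nd NdZ Rot
open OL (CA)
open AL1A (gT_mul gT_add gT_smul)
open AL1B (gT_one)

variable {I Λ : Type} [Fintype I] [DecidableEq I] [DecidableEq Λ] {D : Dat I Λ}
  {At : (L : ℕ) → Ten I L → Prop}

/-! ### Conjugate combinations -/

/-- pairs of combinations of members with conjugate coefficients -/
def Cj (At : (L : ℕ) → Ten I L → Prop) (L : ℕ) : AddSubmonoid (Ten I L × Ten I L) :=
  AddSubmonoid.closure {p | ∃ (a : ℂ) (z : Ten I L), At L z ∧ p = (a • z, starRingEnd ℂ a • z)}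

theorem cj_gen {L : ℕ} (a : ℂ) {z : Ten I L} (hz : At L z) :
    (a • z, starRingEnd ℂ a • z) ∈ Cj At L := AddSubmonoid.subset_closure ⟨a, z, hz, rfl⟩

theorem cj_ind {L : ℕ} {C : Ten I L → Ten I L → Prop}
    (h1 : ∀ (a : ℂ) (z : Ten I L), At L z → C (a • z) (starRingEnd ℂ a • z)) (h0 : C 0 0)
    (h2 : ∀ u v u' v', C u v → C u' v' → C (u + u') (v + v')) {u v : Ten I L}
    (h : (u, v) ∈ Cj At L) : C u v := by
  have key : ∀ p ∈ Cj At L, C p.1 p.2 := by
    intro p hp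
    unfold Cj at hp
    refine AddSubmonoid.closure_induction (motive := fun p _ => C p.1 p.2) ?_ h0 ?_ hp
    · rintro _ ⟨a, z, hz, rfl⟩
      exact h1 a z hz
    · intro a b _ _ ha hb
      exact h2 _ _ _ _ ha hb
  exact key _ h

theorem cj_add {L : ℕ} {u v u' v' : Ten I L} (h : (u, v) ∈ Cj At L) (h' : (u', v') ∈ Cj At L) :
    (u + u', v + v') ∈ Cj At L := add_mem h h'

theorem cj_zero {L : ℕ} : ((0 : Ten I L), (0 : Ten I L)) ∈ Cj At L := (Cj At L).zero_mem

theorem cj_smul {L : ℕ} (c : ℂ) {u v : Ten I L} (h : (u, v) ∈ Cj At L) :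
    (c • u, starRingEnd ℂ c • v) ∈ Cj At L := by
  refine cj_ind (C := fun u v => (c • u, starRingEnd ℂ c • v) ∈ Cj At L) ?_ ?_ ?_ h
  · intro a z hz
    have h1 := cj_gen (At := At) (c * a) hz
    rwa [map_mul, mul_smul, mul_smul] at h1
  · rw [smul_zero, smul_zero]
    exact cj_zero
  · intro u v u' v' h1 h2
    rw [smul_add, smul_add]
    exact cj_add h1 h2

theorem cj_swap {L : ℕ} {u v : Ten I L} (h : (u, v) ∈ Cj At L) : (v, u) ∈ Cj At L := by
  refine cj_ind (C := fun u v => (v, u) ∈ Cj At L) ?_ cj_zero ?_ h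
  · intro a z hz
    have h1 := cj_gen (At := At) (starRingEnd ℂ a) hz
    rwa [Complex.conj_conj] at h1
  · intro u v u' v' h1 h2
    exact cj_add h1 h2

theorem cj_left {L : ℕ} {u v : Ten I L} (h : (u, v) ∈ Cj At L) : u ∈ CA At L := by
  refine cj_ind (C := fun u _ => u ∈ CA At L) ?_ (zero_mem _) ?_ h
  · intro a z hz
    exact Submodule.smul_mem _ _ (sub_CA hz)
  · intro u v u' v' h1 h2
    exact add_mem h1 h2

theorem cj_exists {L : ℕ} {u : Ten I L} (hu : u ∈ CA At L) : ∃ v, (u, v) ∈ Cj At L := by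
  unfold CA at hu
  induction hu using Submodule.span_induction with
  | mem u hu =>
    refine ⟨u, ?_⟩
    have h1 := cj_gen (At := At) (1 : ℂ) (z := u) hu
    rwa [map_one, one_smul] at h1
  | zero => exact ⟨0, cj_zero⟩
  | add a b _ _ ha hb =>
    obtain ⟨v, hv⟩ := ha
    obtain ⟨w, hw⟩ := hb
    exact ⟨v + w, cj_add hv hw⟩
  | smul c a _ ha =>
    obtain ⟨v, hv⟩ := ha
    exact ⟨_, cj_smul c hv⟩

theorem cj_psi (S : ASys D At) {L : ℕ} {u v : Ten I L} (h : (u, v) ∈ Cj At L) {w : Ten I L}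
    (hw : At L w) : psiT D v w = starRingEnd ℂ (psiT D u w) := by
  refine cj_ind (C := fun u v => psiT D v w = starRingEnd ℂ (psiT D u w)) ?_ ?_ ?_ h
  · intro a z hz
    obtain ⟨q, hq⟩ := Qps.psi_rat S hz hw
    rw [← Qps.psiL_apply, ← Qps.psiL_apply, map_smul, map_smul, LinearMap.smul_apply,
      LinearMap.smul_apply, Qps.psiL_apply, hq, smul_eq_mul, smul_eq_mul, map_mul]
    congr 1
    exact (Complex.conj_ofReal (q : ℝ)).symm
  · rw [← Qps.psiL_apply, map_zero, LinearMap.zero_apply, map_zero]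
  · intro u v u' v' h1 h2
    rw [← Qps.psiL_apply, ← Qps.psiL_apply, map_add, map_add, LinearMap.add_apply,
      LinearMap.add_apply, Qps.psiL_apply, Qps.psiL_apply, Qps.psiL_apply, Qps.psiL_apply, h1, h2,
      map_add]

/-- conjugates of elements of the kernel are in the kernel -/
theorem cj_kr (S : ASys D At) {L : ℕ} {u v : Ten I L} (h : (u, v) ∈ Cj At L)
    (hu : u ∈ Kr D At L) : v ∈ Kr D At L := by
  refine ⟨cj_left (cj_swap h), fun w hw => ?_⟩
  unfold CA at hw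
  induction hw using Submodule.span_induction with
  | mem w hw => rw [cj_psi S h hw, hu.2 w (sub_CA hw), map_zero]
  | zero => rw [← Qps.psiL_apply, map_zero]
  | add a b _ _ ha hb =>
    rw [← Qps.psiL_apply] at ha hb ⊢
    rw [map_add, ha, hb, add_zero]
  | smul c a _ ha =>
    rw [← Qps.psiL_apply] at ha ⊢
    rw [map_smul, ha, smul_zero]

/-- pairs of combinations of operators with conjugate coefficients -/
def Cm (D : Dat I Λ) (At : (L : ℕ) → Ten I L → Prop) :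
    AddSubmonoid (Matrix I I ℂ × Matrix I I ℂ) :=
  AddSubmonoid.closure {p | ∃ (a : ℂ) (z : Ten I 2), At 2 z ∧
    p = (a • opM D z, starRingEnd ℂ a • opM D z)}

theorem cm_gen (a : ℂ) {z : Ten I 2} (hz : At 2 z) :
    (a • opM D z, starRingEnd ℂ a • opM D z) ∈ Cm D At :=
  AddSubmonoid.subset_closure ⟨a, z, hz, rfl⟩

theorem cm_ind {C : Matrix I I ℂ → Matrix I I ℂ → Prop}
    (h1 : ∀ (a : ℂ) (z : Ten I 2), At 2 z → C (a • opM D z) (starRingEnd ℂ a • opM D z))
    (h0 : C 0 0) (h2 : ∀ u v u' v', C u v → C u' v' → C (u + u') (v + v'))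
    {u v : Matrix I I ℂ} (h : (u, v) ∈ Cm D At) : C u v := by
  have key : ∀ p ∈ Cm D At, C p.1 p.2 := by
    intro p hp
    unfold Cm at hp
    refine AddSubmonoid.closure_induction (motive := fun p _ => C p.1 p.2) ?_ h0 ?_ hp
    · rintro _ ⟨a, z, hz, rfl⟩
      exact h1 a z hz
    · intro a b _ _ ha hb
      exact h2 _ _ _ _ ha hb
  exact key _ h

theorem cm_smul (c : ℂ) {u v : Matrix I I ℂ} (h : (u, v) ∈ Cm D At) :
    (c • u, starRingEnd ℂ c • v) ∈ Cm D At := by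
  refine cm_ind (C := fun u v => (c • u, starRingEnd ℂ c • v) ∈ Cm D At) ?_ ?_ ?_ h
  · intro a z hz
    have h1 := cm_gen (D := D) (At := At) (c * a) hz
    rwa [map_mul, mul_smul, mul_smul] at h1
  · rw [smul_zero, smul_zero]
    exact (Cm D At).zero_mem
  · intro u v u' v' h1 h2
    rw [smul_add, smul_add]
    exact add_mem h1 h2

theorem cm_exists {M : Matrix I I ℂ} (hM : M ∈ endS D At) : ∃ N, (M, N) ∈ Cm D At := by
  unfold endS at hM
  induction hM using Submodule.span_induction with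
  | mem M hM =>
    obtain ⟨z, hz, rfl⟩ := hM
    refine ⟨opM D z, ?_⟩
    have h1 := cm_gen (D := D) (At := At) (1 : ℂ) (z := z) hz
    rwa [map_one, one_smul] at h1
  | zero => exact ⟨0, (Cm D At).zero_mem⟩
  | add a b _ _ ha hb =>
    obtain ⟨v, hv⟩ := ha
    obtain ⟨w, hw⟩ := hb
    exact ⟨v + w, add_mem hv hw⟩
  | smul c a _ ha =>
    obtain ⟨v, hv⟩ := ha
    exact ⟨_, cm_smul c hv⟩

theorem cm_right {M N : Matrix I I ℂ} (h : (M, N) ∈ Cm D At) : N ∈ endS D At := by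
  refine cm_ind (C := fun _ N => N ∈ endS D At) ?_ (zero_mem _) ?_ h
  · intro a z hz
    exact Submodule.smul_mem _ _ (Submodule.subset_span ⟨z, hz, rfl⟩)
  · intro u v u' v' h1 h2
    exact add_mem h1 h2

/-- one slot -/
theorem cj_sl (S : ASys D At) (ho : ∀ i, D.odd (D.typ i)) (he : ∀ i j, D.typ i = D.typ j)
    {M N : Matrix I I ℂ} (hMN : (M, N) ∈ Cm D At) {L : ℕ} (r : Fin L) {u v : Ten I L}
    (h : (u, v) ∈ Cj At L) : (Slot.sl M r u, Slot.sl N r v) ∈ Cj At L := by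
  refine cm_ind (C := fun M N => (Slot.sl M r u, Slot.sl N r v) ∈ Cj At L) ?_ ?_ ?_ hMN
  · intro a z hz
    refine cj_ind (C := fun u v => (Slot.sl (a • opM D z) r u,
      Slot.sl (starRingEnd ℂ a • opM D z) r v) ∈ Cj At L) ?_ ?_ ?_ h
    · intro b y hy
      have h1 := cj_gen (At := At) (a * b) (Slot.sl_mem S he ho hz r hy)
      rw [map_mul, mul_smul, mul_smul] at h1
      rw [Slot.smul_sl, Slot.smul_sl, Slot.sl_smul, Slot.sl_smul]
      exact h1
    · have h1 : ∀ A : Matrix I I ℂ, Slot.sl A r (0 : Ten I L) = 0 := by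
        intro A
        have := Slot.sl_smul A r (0 : ℂ) (0 : Ten I L)
        rwa [zero_smul, zero_smul] at this
      rw [h1, h1]
      exact cj_zero
    · intro u v u' v' h1 h2
      rw [Slot.sl_add, Slot.sl_add]
      exact cj_add h1 h2
  · have h1 : ∀ y : Ten I L, Slot.sl (0 : Matrix I I ℂ) r y = 0 := by
      intro y
      have := Slot.smul_sl (0 : ℂ) (0 : Matrix I I ℂ) r y
      rwa [zero_smul, zero_smul] at this
    rw [h1, h1]
    exact cj_zero
  · intro A B A' B' h1 h2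
    rw [Slot.add_sl, Slot.add_sl]
    exact cj_add h1 h2

theorem cj_slT (S : ASys D At) (ho : ∀ i, D.odd (D.typ i)) (he : ∀ i j, D.typ i = D.typ j)
    {L : ℕ} {M N : Fin L → Matrix I I ℂ} (hMN : ∀ i, (M i, N i) ∈ Cm D At) {u v : Ten I L}
    (h : (u, v) ∈ Cj At L) : (slT M u, slT N v) ∈ Cj At L := by
  rw [← gP_univ, ← gP_univ]
  induction (Finset.univ : Finset (Fin L)) using Finset.induction_on with
  | empty => rwa [gP_empty, gP_empty]
  | insert r T hr ih =>
    rw [gP_insert M T r hr, gP_insert N T r hr]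
    exact cj_sl S ho he (hMN r) r ih

/-! ### The adjoint of a central idempotent -/

/-- the real structure on operators: the adjoint of the conjugate is the conjugate transpose -/
theorem dag_opM_jT (ho : ∀ i, D.odd (D.typ i)) (v : Ten I 2) :
    dag D (opM D (jT D v)) = (opM D v)ᴴ := by
  ext i j
  rw [Matrix.conjTranspose_apply]
  unfold dag
  rw [mul_Psi, PsiT_mul, Matrix.transpose_apply]
  have h1 : (D.τ ∘ ![D.τ j, D.τ (D.τ i)]) = ![j, D.τ i] := by
    funext l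
    fin_cases l
    · exact D.τ_τ j
    · change D.τ (D.τ (D.τ i)) = D.τ i
      rw [D.τ_τ]
  have h2 : opM D (jT D v) (D.τ j) (D.τ i) =
      D.s j * D.s (D.τ i) * starRingEnd ℂ (v ![j, D.τ i]) * D.s (D.τ i) := by
    unfold opM jT
    rw [h1, sg, Fin.prod_univ_two]
    rfl
  have h3 : star (opM D v j i) = starRingEnd ℂ (v ![j, D.τ i]) * D.s i := by
    change starRingEnd ℂ (v ![j, D.τ i] * D.s i) = _
    rw [map_mul, Rea.conj_s]
  rw [h2, h3, s_tau ho, s_tau ho]
  have e1 := Slot.s_sq (D := D) i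
  have e2 := Slot.s_sq (D := D) j
  linear_combination (D.s j * D.s j * D.s i * starRingEnd ℂ (v ![j, D.τ i])) * e1 +
    (D.s i * starRingEnd ℂ (v ![j, D.τ i])) * e2

theorem dag_inv (a1 : Alg1) {g : Matrix I I ℂ} (hg : IsG D g) :
    dag D g = g⁻¹ := by
  obtain ⟨-, h2, -⟩ := a1.G_inv D g hg
  have h1 := dag_mul_self hg
  calc dag D g = dag D g * (g * g⁻¹) := by rw [h2, Matrix.mul_one]
    _ = g⁻¹ := by rw [← Matrix.mul_assoc, h1, Matrix.one_mul]

/-- a compact real structure in which the adjoint of the conjugate is the conjugate transpose -/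
theorem cm_star (ho : ∀ i, D.odd (D.typ i)) (a1 : Alg1) {g : Matrix I I ℂ} (hg : IsG D g)
    (hfix : ∀ u, At 2 u → gT g (jT D (gT g⁻¹ u)) = u) {M N : Matrix I I ℂ}
    (h : (M, N) ∈ Cm D At) : g⁻¹ * dag D N * g = (g⁻¹ * M * g)ᴴ := by
  obtain ⟨hg1, hg2, hg3⟩ := a1.G_inv D g hg
  have hdd : dag D g⁻¹ = g := by rw [← dag_inv a1 hg, dag_dag ho]
  have hgen : ∀ z, At 2 z → g⁻¹ * dag D (opM D z) * g = (g⁻¹ * opM D z * g)ᴴ := by
    intro z hz
    have h1 : jT D (gT g⁻¹ z) = gT g⁻¹ z := by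
      have h2 := congrArg (gT g⁻¹) (hfix z hz)
      rwa [gT_inv_gT a1 hg] at h2
    have h2 : opM D (gT g⁻¹ z) = g⁻¹ * opM D z * g := by
      have h3 := QS.opM_gT ho a1 hg1 z
      have h4 : (g⁻¹)⁻¹ = g := Matrix.inv_eq_left_inv hg2
      rwa [h4] at h3
    rw [← h2, ← dag_opM_jT ho, h1, h2, dag_mul ho, dag_mul ho, hdd, dag_inv a1 hg,
      Matrix.mul_assoc]
  refine cm_ind (C := fun M N => g⁻¹ * dag D N * g = (g⁻¹ * M * g)ᴴ) ?_ ?_ ?_ h
  · intro a z hz
    rw [dag_smul, Matrix.mul_smul, Matrix.smul_mul, hgen z hz, Matrix.mul_smul, Matrix.smul_mul,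
      Matrix.conjTranspose_smul]
    rfl
  · unfold dag
    simp
  · intro A B A' B' h1 h2
    have h3 : dag D (B + B') = dag D B + dag D B' := by
      unfold dag
      rw [Matrix.transpose_add, Matrix.mul_add, Matrix.add_mul]
    rw [h3, Matrix.mul_add, Matrix.add_mul, h1, h2, Matrix.mul_add, Matrix.add_mul,
      Matrix.conjTranspose_add]

/-- a normal idempotent is selfadjoint -/
theorem idem_normal {A : Matrix I I ℂ} (h1 : A * A = A) (h2 : Aᴴ * A = A * Aᴴ) : Aᴴ = A := by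
  have h3 : Aᴴ * Aᴴ = Aᴴ := by rw [← Matrix.conjTranspose_mul, h1]
  have h4 : (A - A * Aᴴ)ᴴ * (A - A * Aᴴ) = 0 := by
    rw [Matrix.conjTranspose_sub, Matrix.conjTranspose_mul, Matrix.conjTranspose_conjTranspose,
      Matrix.sub_mul, Matrix.mul_sub, Matrix.mul_sub]
    have e1 : Aᴴ * (A * Aᴴ) = A * Aᴴ := by
      rw [← Matrix.mul_assoc, h2, Matrix.mul_assoc, h3]
    have e2 : A * Aᴴ * A = A * Aᴴ := by
      rw [Matrix.mul_assoc, h2, ← Matrix.mul_assoc, h1]
    have e3 : A * Aᴴ * (A * Aᴴ) = A * Aᴴ := by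
      rw [← Matrix.mul_assoc, e2, Matrix.mul_assoc, h3]
    rw [e1, e2, e3, h2]
    simp
  have h5 : A - A * Aᴴ = 0 := Matrix.conjTranspose_mul_self_eq_zero.1 h4
  have h6 : A = A * Aᴴ := sub_eq_zero.1 h5
  calc Aᴴ = (A * Aᴴ)ᴴ := by rw [← h6]
    _ = A * Aᴴ := by rw [Matrix.conjTranspose_mul, Matrix.conjTranspose_conjTranspose]
    _ = A := h6.symm

/-- **The conjugate of a central idempotent is its adjoint.** -/
theorem cm_cen (S : ASys D At) (ho : ∀ i, D.odd (D.typ i)) (a1 : Alg1) {g : Matrix I I ℂ}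
    (hg : IsG D g) (hfix : ∀ u, At 2 u → gT g (jT D (gT g⁻¹ u)) = u) {e N : Matrix I I ℂ}
    (hc : Cen D At e) (hee : e * e = e) (h : (e, N) ∈ Cm D At) : N = dag D e := by
  obtain ⟨hg1, hg2, hg3⟩ := a1.G_inv D g hg
  have h1 := cm_star ho a1 hg hfix h
  have hconj : ∀ A B : Matrix I I ℂ, g⁻¹ * A * g * (g⁻¹ * B * g) = g⁻¹ * (A * B) * g := by
    intro A B
    calc g⁻¹ * A * g * (g⁻¹ * B * g) = g⁻¹ * A * (g * g⁻¹) * B * g := by noncomm_ring
      _ = _ := by rw [hg2]; noncomm_ring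
  have h2 : (g⁻¹ * e * g)ᴴ = g⁻¹ * e * g := by
    refine idem_normal (by rw [hconj, hee]) ?_
    rw [← h1, hconj, hconj, hc.comm _ (dag_mem S ho (cm_right h))]
  rw [h2] at h1
  have h3 : dag D N = e := by
    have h4 : ∀ A : Matrix I I ℂ, g * (g⁻¹ * A * g) * g⁻¹ = A := by
      intro A
      calc g * (g⁻¹ * A * g) * g⁻¹ = (g * g⁻¹) * A * (g * g⁻¹) := by noncomm_ring
        _ = A := by rw [hg2, Matrix.one_mul, Matrix.mul_one]
    rw [← h4 (dag D N), h1, h4]
  rw [← h3, dag_dag ho]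

/-- the compact real structure from the Hodge index theorem -/
theorem exists_real (hY : YStatement) (a1 : Alg1) (S : ASys D At)
    (ho : ∀ i, D.odd (D.typ i))
    (hpos : ∀ u, At 2 u → u ≠ 0 → ∃ q : ℚ, 0 < q ∧ psiT D u u = (q : ℂ)) :
    ∃ g, IsG D g ∧ ∀ u, At 2 u → gT g (jT D (gT g⁻¹ u)) = u := by
  have hp : ∀ L, L ≤ 2 → ∀ u, At L u → u ≠ 0 → ∃ q : ℚ, 0 < q ∧ psiT D u u = (q : ℂ) := by
    intro L hL u hu hu0
    rcases (show L = 0 ∨ L = 1 ∨ L = 2 by omega) with rfl | rfl | rfl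
    · obtain ⟨q, hq⟩ := S.rat u hu
      have hq0 : q ≠ 0 := by
        rintro rfl
        apply hu0
        funext w
        rw [hq]
        simp
      refine ⟨q * q, mul_self_pos.2 hq0, ?_⟩
      rw [psiT, Fintype.sum_unique, sg, Finset.univ_eq_empty, Finset.prod_empty, hq, hq]
      push_cast
      ring
    · exfalso
      apply hu0
      have h1 := S.even 1 u hu
      rw [jT_jT D ho] at h1
      funext w
      have h2 := congrFun h1 w
      rw [Pi.smul_apply, pow_one, smul_eq_mul] at h2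
      rw [Pi.zero_apply]
      linear_combination (-1 / 2 : ℂ) * h2
    · exact hpos u hu hu0
  obtain ⟨g, hg, hfix⟩ := qps hY a1 S 2 hp
  exact ⟨g, hg, fun u hu => hfix 2 le_rfl u hu⟩

/-! ### Nondegeneracy in one length -/

/-- **Nondegeneracy in one length.** -/
theorem nd_of_conj (hY : YStatement) (a1 : Alg1) (S : ASys D At) (ho : ∀ i, D.odd (D.typ i))
    (he : ∀ i j, D.typ i = D.typ j) (Γ : Set (Matrix I I ℂ)) (grp : ∀ x ∈ Γ, IsG D x)
    (gfix : ∀ x ∈ Γ, ∀ L u, At L u → gT x u = u)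
    (orbit : ∀ U : Submodule ℂ (I → ℂ),
      (∀ z, At 2 z → ∀ v ∈ U, (opM D z).mulVec v ∈ U) →
      {U' : Submodule ℂ (I → ℂ) | ∃ x ∈ Γ, U' = U.map (Matrix.toLin' x)}.Finite →
      ∃ e ∈ endS D At, e * e = e ∧ (∀ z, At 2 z → e * opM D z = opM D z * e) ∧
        U = LinearMap.range (Matrix.toLin' e))
    (hpos : ∀ u, At 2 u → u ≠ 0 → ∃ q : ℚ, 0 < q ∧ psiT D u u = (q : ℂ)) {L : ℕ}
    (hconj : ∀ v : Ten I L, ((0 : Ten I L), v) ∈ Cj At L → v = 0) :
    ∀ u ∈ CA At L, u ≠ 0 → ∃ v ∈ CA At L, psiT D u v ≠ 0 := by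
  intro t0 ht0 h0
  by_contra hcon
  push Not at hcon
  obtain ⟨g, hg, hfix⟩ := exists_real hY a1 S ho hpos
  obtain ⟨T, iF, iD, f, bar, F⟩ := exists_fam S ho he
  have hf : ∀ s, (f s, f (bar s)) ∈ Cm D At := by
    intro s
    obtain ⟨N, hN⟩ := cm_exists (F.cen s).mem
    have h1 := cm_cen S ho a1 hg hfix (F.cen s) (F.idem s) hN
    rw [F.dag] at h1
    rwa [h1] at hN
  -- a component in the kernel
  have hk0 : t0 ∈ Kr D At L := ⟨ht0, hcon⟩
  obtain ⟨κ, hκ⟩ : ∃ κ : Fin L → T, wd f κ t0 ≠ 0 := by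
    by_contra h
    push Not at h
    apply h0
    rw [← sum_wd F t0]
    exact Finset.sum_eq_zero fun κ _ => h κ
  obtain ⟨t, ht⟩ : ∃ t, t = wd f κ t0 := ⟨_, rfl⟩
  have htk : t ∈ Kr D At L := by rw [ht]; exact wd_kr S ho he F κ hk0
  have htw : wd f κ t = t := by rw [ht]; exact wd_wd F κ t0
  have ht1 : t ≠ 0 := by rw [ht]; exact hκ
  -- its conjugate
  obtain ⟨v, hv⟩ := cj_exists htk.1
  have hv1 : (wd f κ t, wd f (fun i => bar (κ i)) v) ∈ Cj At L :=
    cj_slT S ho he (fun i => hf (κ i)) hv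
  rw [htw] at hv1
  obtain ⟨v', hv'⟩ : ∃ v', v' = wd f (fun i => bar (κ i)) v := ⟨_, rfl⟩
  rw [← hv'] at hv1
  have hv2 : v' ≠ 0 := by
    rintro h
    rw [h] at hv1
    exact ht1 (hconj t (cj_swap hv1))
  have hv3 : wd f (fun i => bar (κ i)) v' = v' := by
    rw [hv']
    exact wd_wd F _ v
  obtain ⟨ω, hω, hω'⟩ := exists_om S ho he Γ grp gfix orbit F L
  have e1 := hω' κ t htk htw ht1
  have e2 := hω' (fun i => bar (κ i)) v' (cj_kr S hv1 htk) hv3 hv2
  have e3 : ∑ a, (ω (κ a) + ω (bar (κ a))) ≤ 0 :=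
    Finset.sum_nonpos fun a _ => (hω (κ a)).trans (by norm_num)
  rw [Finset.sum_add_distrib] at e3
  linarith

end Pool.Agent.Lib.MP_361a6f_ag.FL.E.Inj
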