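import Pool.Agent.Lib.MP_361a6f_ag.FL.E.I.Cnj

/-!
# The half law for algebraic tensors

Two functionals that take conjugate values on the members of length `L` in the kernel of the form
vanish there. So the complex span of these members has at most half the dimension of their rational
span.
-/

open Matrix
open scoped ComplexOrder

set_option autoImplicit false
set_option linter.unusedSectionVars false

namespace Pool.Agent.Lib.MP_361a6f_ag.FL.E.Inj

open Nd NdZ Rot
open OL (CA)
open AL1A (gT_mul gT_add gT_smul)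
open AL1B (gT_one)

/-- the dimension count -/
theorem half_count {V : Type*} [AddCommGroup V] [Module ℂ V] [FiniteDimensional ℂ V] {m : ℕ}
    (z : Fin m → V) (h : ∀ l μ : Module.Dual ℂ V, (∀ i, l (z i) = starRingEnd ℂ (μ (z i))) →
      l = 0 ∧ μ = 0) : 2 * Module.finrank ℂ V ≤ m := by
  let b := Module.finBasis ℂ (Module.Dual ℂ V)
  let n := Module.finrank ℂ (Module.Dual ℂ V)
  have hn : n = Module.finrank ℂ V := Subspace.dual_finrank_eq
  let f : Fin n ⊕ Fin n → Fin m → ℂ :=
    Sum.elim (fun k i => b k (z i)) (fun k i => starRingEnd ℂ (b k (z i)))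
  have hf : LinearIndependent ℂ f := by
    rw [Fintype.linearIndependent_iff]
    intro g hg
    have h1 : ∀ i, (∑ k, g (Sum.inl k) • b k) (z i) =
        starRingEnd ℂ ((∑ k, (-starRingEnd ℂ (g (Sum.inr k))) • b k) (z i)) := by
      intro i
      have h2 := congrFun hg i
      rw [Finset.sum_apply, Fintype.sum_sum_type] at h2
      rw [LinearMap.sum_apply, LinearMap.sum_apply, map_sum]
      have h3 : ∀ k, starRingEnd ℂ (((-starRingEnd ℂ (g (Sum.inr k))) • b k) (z i)) =
          -(g (Sum.inr k) * starRingEnd ℂ (b k (z i))) := by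
        intro k
        rw [LinearMap.smul_apply, smul_eq_mul, map_mul, map_neg, Complex.conj_conj, neg_mul]
      rw [Finset.sum_congr rfl fun k _ => h3 k, Finset.sum_neg_distrib]
      exact eq_neg_of_add_eq_zero_left h2
    obtain ⟨h4, h5⟩ := h _ _ h1
    have h6 := Fintype.linearIndependent_iff.1 b.linearIndependent _ h4
    have h7 := Fintype.linearIndependent_iff.1 b.linearIndependent _ h5
    rintro (k | k)
    · exact h6 k
    · have h8 := h7 k
      rw [neg_eq_zero] at h8
      have h9 := congrArg (starRingEnd ℂ) h8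
      rwa [Complex.conj_conj, map_zero] at h9
  have h10 := hf.fintype_card_le_finrank
  rw [Fintype.card_sum, Fintype.card_fin, Module.finrank_fin_fun] at h10
  omega

variable {I Λ : Type} [Fintype I] [DecidableEq I] [DecidableEq Λ] {D : Dat I Λ}
  {At : (L : ℕ) → Ten I L → Prop}

/-- the members in the kernel of the form -/
def Nt (D : Dat I Λ) (At : (L : ℕ) → Ten I L → Prop) (L : ℕ) (u : Ten I L) : Prop :=
  At L u ∧ u ∈ Kr D At L

theorem sl_eq_slT (M : Matrix I I ℂ) {L : ℕ} (r : Fin L) (y : Ten I L) :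
    Slot.sl M r y = slT (fun i => if i = r then M else 1) y := by
  have h1 := gP_insert (fun _ => M) ∅ r (Finset.notMem_empty r) y
  rw [gP_empty] at h1
  rw [← h1]
  funext w
  unfold gP slT
  refine Finset.sum_congr rfl fun w' _ => ?_
  congr 1
  refine Finset.prod_congr rfl fun i _ => ?_
  by_cases h : i = r
  · subst h; simp
  · simp [h, Matrix.one_apply]

theorem sl_kr (S : ASys D At) (ho : ∀ i, D.odd (D.typ i)) (he : ∀ i j, D.typ i = D.typ j)
    {z : Ten I 2} (hz : At 2 z) {L : ℕ} (r : Fin L) {y : Ten I L} (hy : y ∈ Kr D At L) :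
    Slot.sl (opM D z) r y ∈ Kr D At L := by
  rw [sl_eq_slT]
  refine slT_kr S ho he (fun i => ?_) hy
  split_ifs
  · exact Submodule.subset_span ⟨z, hz, rfl⟩
  · exact (cen_one S he).mem

/-- one slot -/
theorem nj_sl (S : ASys D At) (ho : ∀ i, D.odd (D.typ i)) (he : ∀ i j, D.typ i = D.typ j)
    {M N : Matrix I I ℂ} (hMN : (M, N) ∈ Cm D At) {L : ℕ} (r : Fin L) {u v : Ten I L}
    (h : (u, v) ∈ Cj (Nt D At) L) : (Slot.sl M r u, Slot.sl N r v) ∈ Cj (Nt D At) L := by
  refine cm_ind (C := fun M N => (Slot.sl M r u, Slot.sl N r v) ∈ Cj (Nt D At) L) ?_ ?_ ?_ hMN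
  · intro a z hz
    refine cj_ind (C := fun u v => (Slot.sl (a • opM D z) r u,
      Slot.sl (starRingEnd ℂ a • opM D z) r v) ∈ Cj (Nt D At) L) ?_ ?_ ?_ h
    · intro b y hy
      have h0 : Nt D At L (Slot.sl (opM D z) r y) :=
        ⟨Slot.sl_mem S he ho hz r hy.1, sl_kr S ho he hz r hy.2⟩
      have h1 := cj_gen (At := Nt D At) (a * b) h0
      rw [map_mul, mul_smul, mul_smul] at h1
      rw [Slot.smul_sl, Slot.smul_sl, Slot.sl_smul, Slot.sl_smul]
      exact h1
    · have h1 : ∀ A : Matrix I I ℂ, Slot.sl A r (0 : Ten I L) = 0 := by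
        intro A
        have := Slot.sl_smul A r (0 : ℂ) (0 : Ten I L)
        rwa [zero_smul, zero_smul] at this
      rw [h1, h1]
      exact cj_zero
    · intro u v u' v' h1 h2
      rw [Slot.sl_add, Slot.sl_add]
      exact cj_add h1 h2
  · have h1 : ∀ y : Ten I L, Slot.sl (0 : Matrix I I ℂ) r y = 0 := by
      intro y
      have := Slot.smul_sl (0 : ℂ) (0 : Matrix I I ℂ) r y
      rwa [zero_smul, zero_smul] at this
    rw [h1, h1]
    exact cj_zero
  · intro A B A' B' h1 h2
    rw [Slot.add_sl, Slot.add_sl]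
    exact cj_add h1 h2

theorem nj_slT (S : ASys D At) (ho : ∀ i, D.odd (D.typ i)) (he : ∀ i j, D.typ i = D.typ j)
    {L : ℕ} {M N : Fin L → Matrix I I ℂ} (hMN : ∀ i, (M i, N i) ∈ Cm D At) {u v : Ten I L}
    (h : (u, v) ∈ Cj (Nt D At) L) : (slT M u, slT N v) ∈ Cj (Nt D At) L := by
  rw [← gP_univ, ← gP_univ]
  induction (Finset.univ : Finset (Fin L)) using Finset.induction_on with
  | empty => rwa [gP_empty, gP_empty]
  | insert r T hr ih =>
    rw [gP_insert M T r hr, gP_insert N T r hr]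
    exact nj_sl S ho he (hMN r) r ih

/-- **The half law.** If two functionals take conjugate values on the members in the kernel then they
vanish there. -/
theorem half_fun (hY : YStatement) (a1 : Alg1) (S : ASys D At) (ho : ∀ i, D.odd (D.typ i))
    (he : ∀ i j, D.typ i = D.typ j) (Γ : Set (Matrix I I ℂ)) (grp : ∀ x ∈ Γ, IsG D x)
    (gfix : ∀ x ∈ Γ, ∀ L u, At L u → gT x u = u)
    (orbit : ∀ U : Submodule ℂ (I → ℂ),
      (∀ z, At 2 z → ∀ v ∈ U, (opM D z).mulVec v ∈ U) →
      {U' : Submodule ℂ (I → ℂ) | ∃ x ∈ Γ, U' = U.map (Matrix.toLin' x)}.Finite →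
      ∃ e ∈ endS D At, e * e = e ∧ (∀ z, At 2 z → e * opM D z = opM D z * e) ∧
        U = LinearMap.range (Matrix.toLin' e))
    (hpos : ∀ u, At 2 u → u ≠ 0 → ∃ q : ℚ, 0 < q ∧ psiT D u u = (q : ℂ)) {L : ℕ}
    (l μ : Ten I L →ₗ[ℂ] ℂ) (hN : ∀ u, Nt D At L u → l u = starRingEnd ℂ (μ u)) :
    ∀ u, Nt D At L u → l u = 0 := by
  obtain ⟨g, hg, hfix⟩ := exists_real hY a1 S ho hpos
  obtain ⟨T, iF, iD, f, bar, F⟩ := exists_fam S ho he
  have hf : ∀ s, (f s, f (bar s)) ∈ Cm D At := by
    intro s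
    obtain ⟨N, hN⟩ := cm_exists (F.cen s).mem
    have h1 := cm_cen S ho a1 hg hfix (F.cen s) (F.idem s) hN
    rw [F.dag] at h1
    rwa [h1] at hN
  obtain ⟨ω, hω, hω'⟩ := exists_om S ho he Γ grp gfix orbit F L
  have hC : ∀ u v, (u, v) ∈ Cj (Nt D At) L → l u = starRingEnd ℂ (μ v) := by
    intro u v huv
    refine cj_ind (C := fun u v => l u = starRingEnd ℂ (μ v)) ?_ ?_ ?_ huv
    · intro a y hy
      rw [map_smul, map_smul, smul_eq_mul, smul_eq_mul, map_mul, Complex.conj_conj, hN y hy]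
    · rw [map_zero, map_zero, map_zero]
    · intro u v u' v' h1 h2
      rw [map_add, map_add, map_add, h1, h2]
  intro z hz
  by_contra hr
  rw [← sum_wd F z, map_sum] at hr
  obtain ⟨κ, -, hκ⟩ := Finset.exists_ne_zero_of_sum_ne_zero hr
  have hzz : (z, z) ∈ Cj (Nt D At) L := by
    have h1 := cj_gen (At := Nt D At) (1 : ℂ) hz
    rwa [map_one, one_smul] at h1
  have hp : (wd f κ z, wd f (fun i => bar (κ i)) z) ∈ Cj (Nt D At) L :=
    nj_slT S ho he (fun i => hf (κ i)) hzz
  have h1 := hC _ _ hp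
  have h2 : wd f κ z ≠ 0 := fun h0 => hκ (by rw [h0, map_zero])
  have h3 : wd f (fun i => bar (κ i)) z ≠ 0 := fun h0 => hκ (by
    rw [h1, h0, map_zero, map_zero])
  have e1 := hω' κ _ (wd_kr S ho he F κ hz.2) (wd_wd F κ _) h2
  have e2 := hω' (fun i => bar (κ i)) _ (wd_kr S ho he F _ hz.2) (wd_wd F _ _) h3
  have e3 : ∑ a, (ω (κ a) + ω (bar (κ a))) ≤ 0 :=
    Finset.sum_nonpos fun a _ => (hω (κ a)).trans (by norm_num)
  rw [Finset.sum_add_distrib] at e3
  linarith

end Pool.Agent.Lib.MP_361a6f_ag.FL.E.Inj
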