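import Pool.Agent.Lib.MP_361a6f_ag.FL.Defs

/-!
# Words with letters of two kinds

`T` is the set of the letters on which `ι` is `-1`. A tensor that is orthogonal to the tensors fixed
by the block scalars of the group has no balanced words.
-/

set_option autoImplicit false
set_option linter.unusedSectionVars false

open Finset

namespace Pool.Agent.Lib.MP_361a6f_ag.FL.E.Inj

variable {I Λ : Type} [Fintype I] [DecidableEq I] [DecidableEq Λ] {D : Dat I Λ}

/-- block scalars in the group -/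
def Adm (D : Dat I Λ) (l z : I → ℂ) : Prop :=
  (∀ i j, l i = l j → z i = z j) ∧ ∀ i, z (D.τ i) * z i = 1

theorem gT_dia (z : I → ℂ) {L : ℕ} (u : Ten I L) (w : Fin L → I) :
    gT (Matrix.diagonal z) u w = (∏ k, z (w k)) * u w := by
  classical
  unfold gT
  rw [Finset.sum_eq_single w]
  · congr 1
    exact Finset.prod_congr rfl fun k _ => Matrix.diagonal_apply_eq z (w k)
  · intro w' _ hw
    have : ∃ k, w k ≠ w' k := by
      by_contra h
      push Not at h
      exact hw (funext fun k => (h k).symm)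
    obtain ⟨k, hk⟩ := this
    rw [Finset.prod_eq_zero (Finset.mem_univ k) (Matrix.diagonal_apply_ne z hk), zero_mul]
  · intro h
    exact absurd (Finset.mem_univ w) h

theorem sg_mul_self (D : Dat I Λ) {L : ℕ} (w : Fin L → I) : sg D w * sg D w = 1 := by
  unfold sg
  rw [← Finset.prod_mul_distrib]
  refine Finset.prod_eq_one fun k _ => ?_
  rcases D.s_val (w k) with h | h <;> rw [h] <;> norm_num

/-- a diagonal matrix in the group -/
theorem isG_diag {z : I → ℂ} (hG : IsG D (Matrix.diagonal z)) (i : I) : z (D.τ i) * z i = 1 := by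
  have h1 := congrFun (congrFun hG.2 i) (D.τ i)
  rw [Matrix.diagonal_transpose, Matrix.mul_diagonal, Matrix.diagonal_mul] at h1
  have h2 : Psi D i (D.τ i) = D.s i := by simp [Psi]
  rw [h2] at h1
  rcases D.s_val i with hs | hs
  · rw [hs] at h1
    linear_combination h1
  · rw [hs] at h1
    linear_combination (-1 : ℂ) * h1

theorem adm_of_isG {l z : I → ℂ} (h : ∀ i j, l i = l j → z i = z j)
    (hG : IsG D (Matrix.diagonal z)) : Adm D l z := by
  refine ⟨h, fun i => ?_⟩
  have h1 := congrFun (congrFun hG.2 i) (D.τ i)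
  rw [Matrix.diagonal_transpose, Matrix.mul_diagonal, Matrix.diagonal_mul] at h1
  have h2 : Psi D i (D.τ i) = D.s i := by simp [Psi]
  rw [h2] at h1
  rcases D.s_val i with hs | hs
  · rw [hs] at h1
    linear_combination h1
  · rw [hs] at h1
    linear_combination (-1 : ℂ) * h1

/-- a tensor that is orthogonal to the tensors fixed by `Gb` has no balanced words -/
theorem no_bal {L : ℕ} {l : I → ℂ} {Gb : Set (Matrix I I ℂ)}
    (hGb : ∀ x ∈ Gb, ∃ z : I → ℂ, Adm D l z ∧ x = Matrix.diagonal z) {u : Ten I L}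
    (h0 : ∀ d : Ten I L, (∀ x ∈ Gb, gT x d = d) → psiT D u d = 0)
    (w : Fin L → I) (hw : ∀ z, Adm D l z → ∏ k, z (w k) = 1) : u w = 0 := by
  classical
  obtain ⟨bal, hbal⟩ : ∃ bal : (Fin L → I) → Prop, ∀ w, bal w ↔
    ∀ z, Adm D l z → ∏ k, z (w k) = 1 := ⟨_, fun w => Iff.rfl⟩
  set v : Ten I L := fun w => if bal w then u w else 0 with hv
  set d : Ten I L := jT D v with hd
  have hττ : ∀ w : Fin L → I, D.τ ∘ (D.τ ∘ w) = w := fun w => funext fun k => D.τ_τ (w k)
  have hfix : ∀ x ∈ Gb, gT x d = d := by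
    intro x hx
    obtain ⟨z, hz, rfl⟩ := hGb x hx
    funext w
    rw [gT_dia]
    by_cases hdw : bal (D.τ ∘ w)
    · have h1 : ∏ k, z ((D.τ ∘ w) k) = 1 := (hbal _).1 hdw z hz
      have h2 : (∏ k, z ((D.τ ∘ w) k)) * ∏ k, z (w k) = 1 := by
        rw [← Finset.prod_mul_distrib]
        exact Finset.prod_eq_one fun k _ => hz.2 (w k)
      rw [h1, one_mul] at h2
      rw [h2, one_mul]
    · have : d w = 0 := by
        rw [hd]
        simp only [jT, hv, hdw, if_false, map_zero, mul_zero]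
      rw [this, mul_zero]
  have h1 := h0 d hfix
  have h2 : psiT D u d = ((∑ w, ‖v w‖ ^ 2 : ℝ) : ℂ) := by
    unfold psiT
    rw [Complex.ofReal_sum]
    refine Finset.sum_congr rfl fun w _ => ?_
    have h3 : d (D.τ ∘ w) = sg D w * (starRingEnd ℂ) (v w) := by
      rw [hd]
      simp only [jT, hττ]
    rw [h3]
    have h4 : u w * (starRingEnd ℂ) (v w) = ((‖v w‖ ^ 2 : ℝ) : ℂ) := by
      by_cases hc : bal w
      · have : v w = u w := by rw [hv]; simp only [hc, if_true]
        rw [this, Complex.mul_conj, Complex.normSq_eq_norm_sq]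
      · have : v w = 0 := by rw [hv]; simp only [hc, if_false]
        rw [this]
        simp
    calc sg D w * (u w * (sg D w * (starRingEnd ℂ) (v w)))
        = (sg D w * sg D w) * (u w * (starRingEnd ℂ) (v w)) := by ring
      _ = _ := by rw [sg_mul_self, one_mul, h4]
  rw [h2] at h1
  have h3 : (∑ w, ‖v w‖ ^ 2 : ℝ) = 0 := by exact_mod_cast h1
  have h4 := (Finset.sum_eq_zero_iff_of_nonneg (fun w _ => by positivity)).1 h3 w
    (Finset.mem_univ w)
  have h5 : v w = 0 := by simpa using h4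
  have h6 : v w = u w := by
    rw [hv]
    simp only [(hbal w).2 hw, if_true]
  rw [← h6, h5]

/-- an even number of letters on which `F` is `1` -/
theorem prod_T {T : I → Prop} (hTτ : ∀ i, T (D.τ i) ↔ T i) {l z : I → ℂ}
    (hlT : ∀ i, T i → l i = 1) (hz : Adm D l z) {p : ℕ} (hp : Even p) (w : Fin p → I)
    (hw : ∀ i, T (w i)) : ∏ i, z (w i) = 1 := by
  rcases Nat.eq_zero_or_pos p with rfl | hpos
  · exact Fin.prod_univ_zero _
  obtain ⟨i0, hi0, h5⟩ : ∃ i0, T i0 ∧ ∀ k ∈ (univ : Finset (Fin p)), z (w k) = z i0 :=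
    ⟨w ⟨0, hpos⟩, hw _, fun k _ => hz.1 _ _ (by rw [hlT _ (hw k), hlT _ (hw _)])⟩
  rw [Finset.prod_congr rfl h5, Finset.prod_const, Finset.card_univ, Fintype.card_fin]
  have h6 : z i0 * z i0 = 1 := by
    have h7 : z (D.τ i0) = z i0 := hz.1 _ _ (by rw [hlT _ ((hTτ _).2 hi0), hlT _ hi0])
    have h8 := hz.2 i0
    rwa [h7] at h8
  obtain ⟨a, rfl⟩ := hp
  rw [← two_mul, pow_mul, sq, h6, one_pow]

/-- the positions with a property first -/
theorem exists_split {L : ℕ} (T : Fin L → Prop) [DecidablePred T] :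
    ∃ (p c : ℕ) (_ : L = p + c) (e : Fin (p + c) ≃ Fin L),
      (∀ i, T (e (Fin.castAdd c i))) ∧ ∀ i, ¬ T (e (Fin.natAdd p i)) := by
  refine ⟨Fintype.card {k // T k}, Fintype.card {k // ¬ T k}, ?_, finSumFinEquiv.symm.trans
    ((Equiv.sumCongr (Fintype.equivFin {k // T k}).symm
      (Fintype.equivFin {k // ¬ T k}).symm).trans (Equiv.sumCompl T)), fun i => ?_, fun i => ?_⟩
  · have h := Fintype.card_congr (Equiv.sumCompl T)
    rw [Fintype.card_sum, Fintype.card_fin] at h
    exact h.symm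
  · simp only [Equiv.trans_apply, finSumFinEquiv_symm_apply_castAdd, Equiv.sumCongr_apply,
      Sum.map_inl, Equiv.sumCompl_apply_inl]
    exact ((Fintype.equivFin {k // T k}).symm i).2
  · simp only [Equiv.trans_apply, finSumFinEquiv_symm_apply_natAdd, Equiv.sumCongr_apply,
      Sum.map_inr, Equiv.sumCompl_apply_inr]
    exact ((Fintype.equivFin {k // ¬ T k}).symm i).2

/-- The numbers `a 0, …, a (m - 1)` can be arranged in pairs with product `c`. -/
def Paired {m : ℕ} (a : Fin m → ℂ) (c : ℂ) : Prop :=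
  ∃ σ : Fin m → Fin m, ∀ k, σ k ≠ k ∧ σ (σ k) = k ∧ a k * a (σ k) = c

/-- the pairs decide -/
theorem prod_one {l z : I → ℂ} (hτ : ∀ i, l (D.τ i) * l i = 1)
    (hz : Adm D l z) {m : ℕ} (a : Fin m → I) (h : Paired (fun k => l (a k)) 1) :
    ∏ k, z (a k) = 1 := by
  obtain ⟨σ, hσ⟩ := h
  refine Finset.prod_involution (fun k _ => σ k) (fun k _ => ?_) (fun k _ _ => (hσ k).1)
    (fun k _ => Finset.mem_univ _) (fun k _ => (hσ k).2.1)
  have h1 : l (a (σ k)) = l (D.τ (a k)) := by
    have h2 : l (a k) * l (a (σ k)) = 1 := (hσ k).2.2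
    have h3 := hτ (a k)
    have h4 : l (a k) ≠ 0 := left_ne_zero_of_mul_eq_one h2
    exact mul_left_cancel₀ h4 (by rw [h2, mul_comm, h3])
  rw [hz.1 _ _ h1, mul_comm]
  exact hz.2 _

/-- two numbers with product `1` form a pair -/
theorem paired_two (m : ℕ) (hm : m + 2 ≤ 4) (hme : Even m) (a : Fin m → ℂ)
    (ha : ∏ k, a k = 1) : Paired a 1 := by
  have h : m = 0 ∨ m = 2 := by
    obtain ⟨r, hr⟩ := hme
    omega
  rcases h with rfl | rfl
  · exact ⟨fun k => k, fun k => k.elim0⟩
  · refine ⟨fun k => 1 - k, fun k => ?_⟩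
    rw [Fin.prod_univ_two] at ha
    fin_cases k
    · exact ⟨by decide, by decide, ha⟩
    · exact ⟨by decide, by decide, by rw [mul_comm]; exact ha⟩

end Pool.Agent.Lib.MP_361a6f_ag.FL.E.Inj
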