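import Pool.Agent.Lib.MP_361a6f_ag.FL.E.I.Prj
import Pool.Agent.Lib.MP_361a6f_ag.FL.E.I.Wrd

/-!
# One place, in coordinates

`F` is the matrix of Frobenius and `ι` the matrix of an involution of the reduction. A combination
of members whose conjugate combination vanishes has no reducible words: words of eigenvectors of
`F` in which some letters are in pairs, such that for the number of the other letters the
combination with the complex conjugate coefficients of a vanishing combination of algebraic tensors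
of the reduction vanishes.
-/

open Matrix

set_option autoImplicit false
set_option linter.unusedSectionVars false

namespace Pool.Agent.Lib.MP_361a6f_ag.FL.E.Inj

open Nd NdZ Rot QS
open OL (CA)
open AL1A (gT_mul gT_add gT_smul)
open AL1B (gT_one)

variable {I Λ : Type} [Fintype I] [DecidableEq I] [DecidableEq Λ] {D : Dat I Λ}
  {At Ct : (L : ℕ) → Ten I L → Prop}

/-- the data of a place -/
structure LSys (D : Dat I Λ) (At Ct : (L : ℕ) → Ten I L → Prop) (F ι : Matrix I I ℂ) :
    Prop where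
  csys : ASys D Ct
  typ_eq : ∀ i j, D.typ i = D.typ j
  odd : ∀ i, D.odd (D.typ i)
  sub : ∀ L u, At L u → Ct L u
  iota : IsG D ι
  frob : IsG D F
  sq : ι * ι = 1
  cm : F * ι = ι * F
  mten : mten D (F * ι) ∈ Submodule.span ℝ {u | Ct 2 u}
  fix : ∀ L u, At L u → gT F u = u
  ifix2 : ∀ u, At 2 u → gT ι u = u
  /-- Hodge index -/
  pos : ∀ u, Ct 2 u → u ≠ 0 → ∃ q : ℚ, 0 < q ∧ psiT D u u = (q : ℂ)
  /-- the quotients of different eigenvalues of `F` are no roots of unity -/
  ratio : ∀ μ ν : ℂ, Module.End.HasEigenvalue (Matrix.toLin' F) μ →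
    Module.End.HasEigenvalue (Matrix.toLin' F) ν → μ ≠ ν → ∀ n : ℕ, 0 < n → μ ^ n ≠ ν ^ n
  /-- Tate -/
  comm : ∀ x : Matrix I I ℂ, (∀ u, Ct 2 u → x * opM D u = opM D u * x) →
    x ∈ Algebra.adjoin ℂ {F}

/-- a matrix that fixes the members of one length fixes their combinations -/
theorem gT_fix_len {x : Matrix I I ℂ} {L : ℕ} (hfix : ∀ u, At L u → gT x u = u) {v : Ten I L}
    (hv : v ∈ CA At L) : gT x v = v := by
  unfold CA at hv
  induction hv using Submodule.span_induction with
  | mem u hu => exact hfix u hu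
  | zero =>
    have := gT_smul x (0 : ℂ) (0 : Ten I L)
    rwa [zero_smul, zero_smul] at this
  | add a b _ _ ha hb => rw [gT_add, ha, hb]
  | smul c a _ ha => rw [gT_smul, ha]

/-- a matrix of the group that fixes a tensor of length two commutes with its operator -/
theorem comm_of_two (ho : ∀ i, D.odd (D.typ i)) (a1 : Alg1) {x : Matrix I I ℂ} (hx : IsG D x)
    {z : Ten I 2} (hz : gT x z = z) : x * opM D z = opM D z * x := by
  obtain ⟨-, -, h3⟩ := a1.G_inv D x hx
  have h1 := QS.opM_gT ho a1 hx z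
  rw [hz] at h1
  conv_rhs => rw [h1]
  rw [Matrix.mul_assoc, h3, Matrix.mul_one]

/-- positivity in the lengths at most two -/
theorem pos_le_two (S : ASys D Ct) (ho : ∀ i, D.odd (D.typ i))
    (hpos : ∀ u, Ct 2 u → u ≠ 0 → ∃ q : ℚ, 0 < q ∧ psiT D u u = (q : ℂ)) :
    ∀ L, L ≤ 2 → ∀ u, Ct L u → u ≠ 0 → ∃ q : ℚ, 0 < q ∧ psiT D u u = (q : ℂ) := by
  intro L hL u hu hu0
  rcases (show L = 0 ∨ L = 1 ∨ L = 2 by omega) with rfl | rfl | rfl
  · obtain ⟨q, hq⟩ := S.rat u hu
    have hq0 : q ≠ 0 := by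
      rintro rfl
      apply hu0
      funext w
      rw [hq]
      simp
    refine ⟨q * q, mul_self_pos.2 hq0, ?_⟩
    rw [psiT, Fintype.sum_unique, sg, Finset.univ_eq_empty, Finset.prod_empty, hq, hq]
    push_cast
    ring
  · exfalso
    apply hu0
    have h1 := S.even 1 u hu
    rw [jT_jT D ho] at h1
    funext w
    have h2 := congrFun h1 w
    rw [Pi.smul_apply, pow_one, smul_eq_mul] at h2
    rw [Pi.zero_apply]
    linear_combination (-1 / 2 : ℂ) * h2
  · exact hpos u hu hu0

/-- a tensor fixed by the matrices of the group that fix the members of length two is a combination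
of members -/
theorem fft_two (hY : YStatement) (a1 : Alg1) (S : ASys D Ct) (ho : ∀ i, D.odd (D.typ i))
    (hpos : ∀ u, Ct 2 u → u ≠ 0 → ∃ q : ℚ, 0 < q ∧ psiT D u u = (q : ℂ)) {c : ℕ} {v : Ten I c}
    (h : ∀ x, IsG D x → (∀ u, Ct 2 u → gT x u = u) → gT x v = v) : v ∈ CA Ct c := by
  classical
  have hp := pos_le_two S ho hpos
  obtain ⟨B, hB1, hB2, hB3⟩ := exists_linearIndependent ℂ {u : Ten I 2 | Ct 2 u}
  have hBfin : B.Finite := hB3.setFinite
  have : Fintype B := hBfin.fintype
  let len : Option B → ℕ := fun i => i.elim 0 (fun _ => 2)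
  let t : Tup I len := fun i => match i with
    | none => fun _ => 1
    | some x => x.1
  have ht : ∀ i, Ct (len i) (t i) := by
    intro i
    match i with
    | none => exact S.one
    | some x => exact hB1 x.2
  have hlen : ∀ i, len i ≤ 2 := by
    intro i
    match i with
    | none => exact Nat.zero_le _
    | some x => exact le_rfl
  obtain ⟨-, -, -, hY3⟩ := hY D t (fun i => Qps.posAt S a1 (hp _ (hlen i)) ht)
    ⟨none, rfl, fun _ => rfl⟩ (by
      funext i
      exact S.even _ _ (ht i))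
  have h1 := hY3 c v (fun x hx hxt => h x hx fun u hu => by
    have h2 : u ∈ Submodule.span ℂ B := by
      rw [hB2]
      exact Submodule.subset_span hu
    have h3 : ∀ b ∈ B, gT x b = b := fun b hb => congrFun hxt (some ⟨b, hb⟩)
    clear hu
    induction h2 using Submodule.span_induction with
    | mem u hu => exact h3 u hu
    | zero =>
      have := gT_smul x (0 : ℂ) (0 : Ten I 2)
      rwa [zero_smul, zero_smul] at this
    | add a b _ _ ha hb => rw [gT_add, ha, hb]
    | smul c a _ ha => rw [gT_smul, ha])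
  unfold CA
  refine Submodule.span_mono ?_ h1
  rintro w ⟨l, m, hm, rfl⟩
  exact Qps.dm_mem S ht c l hm

/-- the same relations for the larger system -/
theorem cj_mono (hsub : ∀ L u, At L u → Ct L u) {L : ℕ} {u v : Ten I L}
    (h : (u, v) ∈ Cj At L) : (u, v) ∈ Cj Ct L := by
  refine cj_ind (C := fun u v => (u, v) ∈ Cj Ct L) ?_ cj_zero (fun _ _ _ _ => cj_add) h
  intro a z hz
  exact cj_gen a (hsub L z hz)

theorem contr_add {p c : ℕ} (t : Ten I p) (u v : Ten I (p + c)) :
    cont D t (u + v) = cont D t u + cont D t v := by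
  funext w
  simp only [cont, Pi.add_apply, mul_add, Finset.sum_add_distrib]

theorem contr_smul {p c : ℕ} (t : Ten I p) (a : ℂ) (u : Ten I (p + c)) :
    cont D t (a • u) = a • cont D t u := by
  funext w
  simp only [cont, Pi.smul_apply, smul_eq_mul, Finset.mul_sum]
  exact Finset.sum_congr rfl fun w' _ => by ring

/-- contraction with a member -/
theorem cj_cont (S : ASys D Ct) {p c : ℕ} {t : Ten I p} (ht : Ct p t) {u v : Ten I (p + c)}
    (h : (u, v) ∈ Cj Ct (p + c)) : (cont D t u, cont D t v) ∈ Cj Ct c := by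
  refine cj_ind (C := fun u v => (cont D t u, cont D t v) ∈ Cj Ct c) ?_ ?_ ?_ h
  · intro a z hz
    rw [contr_smul, contr_smul]
    exact cj_gen a (S.cont p c t z ht hz)
  · have h0 : cont D t (0 : Ten I (p + c)) = 0 := by
      funext w
      simp [cont]
    rw [h0]
    exact cj_zero
  · intro u v u' v' h1 h2
    rw [contr_add, contr_add]
    exact cj_add h1 h2

/-- permutations of the slots -/
theorem cj_perm (S : ASys D At) {L : ℕ} (σ : Equiv.Perm (Fin L)) {u v : Ten I L}
    (h : (u, v) ∈ Cj At L) : (permT σ u, permT σ v) ∈ Cj At L := by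
  refine cj_ind (C := fun u v => (permT σ u, permT σ v) ∈ Cj At L) ?_ cj_zero
    (fun _ _ _ _ h1 h2 => cj_add h1 h2) h
  intro a z hz
  exact cj_gen a (S.perm L σ z hz)

/-- contraction with combinations of members -/
theorem cont_zero_of {p c : ℕ} {v : Ten I (p + c)} (h : ∀ t, Ct p t → cont D t v = 0)
    {t : Ten I p} (ht : t ∈ CA Ct p) : cont D t v = 0 := by
  unfold CA at ht
  induction ht using Submodule.span_induction with
  | mem t ht => exact h t ht
  | zero =>
    funext w
    simp [cont]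
  | add a b _ _ ha hb =>
    have h1 : cont D (a + b) v = cont D a v + cont D b v := by
      funext w
      simp only [cont, Pi.add_apply, add_mul, mul_add, Finset.sum_add_distrib]
    rw [h1, ha, hb, add_zero]
  | smul x a _ ha =>
    have h1 : cont D (x • a) v = x • cont D a v := by
      funext w
      simp only [cont, Pi.smul_apply, smul_eq_mul, Finset.mul_sum]
      exact Finset.sum_congr rfl fun w' _ => by ring
    rw [h1, ha, smul_zero]

/-- the contraction with a basis tensor -/
theorem cont_single {p c : ℕ} (wT : Fin p → I) (wB : Fin c → I) (u : Ten I (p + c)) :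
    cont D (Pi.single (D.τ ∘ wT) 1 : Ten I p) u wB
      = sg D (D.τ ∘ wT) * u (Fin.append wT wB) := by
  have hττ : D.τ ∘ (D.τ ∘ wT) = wT := funext fun k => D.τ_τ (wT k)
  unfold cont
  rw [Finset.sum_eq_single (D.τ ∘ wT)]
  · rw [Pi.single_eq_same, one_mul, hττ]
  · intro w' _ hw'
    rw [Pi.single_eq_of_ne hw', zero_mul, mul_zero]
  · intro h
    exact absurd (Finset.mem_univ _) h

/-- the numbers can be paired except for `c` of them, and relations of length `c` may be
conjugated -/
def Red (Ct : (L : ℕ) → Ten I L → Prop) {L : ℕ} (b : Fin L → ℂ) : Prop :=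
  ∃ (p c : ℕ) (_ : L = p + c) (e : Fin (p + c) ≃ Fin L),
    Paired (fun i => b (e (Fin.castAdd c i))) 1 ∧
      ∀ x : Ten I c, ((0 : Ten I c), x) ∈ Cj Ct c → x = 0

/-- relations of length `0` may be conjugated -/
theorem cj_nil (S : ASys D Ct) (x : Ten I 0) (hx : ((0 : Ten I 0), x) ∈ Cj Ct 0) : x = 0 := by
  have key : ∀ {u v : Ten I 0}, (u, v) ∈ Cj Ct 0 → v = fun w => starRingEnd ℂ (u w) := by
    intro u v h
    refine cj_ind (C := fun u v => v = fun w => starRingEnd ℂ (u w)) ?_ ?_ ?_ h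
    · intro a z hz
      obtain ⟨q, hq⟩ := S.rat z hz
      funext w
      rw [Pi.smul_apply, Pi.smul_apply, hq, smul_eq_mul, smul_eq_mul, map_mul]
      congr 1
      exact (Complex.conj_ofReal (q : ℝ)).symm
    · funext w
      simp
    · rintro u v u' v' rfl rfl
      funext w
      simp
  rw [key hx]
  funext w
  simp

/-- matrices that commute with two diagonal ones -/
theorem comm_diag {l ε χ : I → ℂ} {M : Matrix I I ℂ}
    (hχ : ∀ i j, l i = l j → ε i = ε j → χ i = χ j)
    (h : Matrix.diagonal l * M = M * Matrix.diagonal l)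
    (h' : Matrix.diagonal ε * M = M * Matrix.diagonal ε) :
    Matrix.diagonal χ * M = M * Matrix.diagonal χ := by
  have key : ∀ {c : I → ℂ} (i j : I), Matrix.diagonal c * M = M * Matrix.diagonal c →
      c i ≠ c j → M i j = 0 := by
    intro c i j h hij
    have h1 := congrFun (congrFun h i) j
    rw [Matrix.diagonal_mul, Matrix.mul_diagonal] at h1
    have h2 : (c i - c j) * M i j = 0 := by linear_combination h1
    exact (mul_eq_zero.1 h2).resolve_left (sub_ne_zero.2 hij)
  ext i j
  rw [Matrix.diagonal_mul, Matrix.mul_diagonal]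
  by_cases hl : l i = l j
  · by_cases hε : ε i = ε j
    · rw [hχ i j hl hε, mul_comm]
    · rw [key i j h' hε, mul_zero, zero_mul]
  · rw [key i j h hl, mul_zero, zero_mul]

/-- **The common eigenvectors of `F` and `ι`.** -/
theorem joint (hY : YStatement) (a1 : Alg1) {F ι : Matrix I I ℂ} (S : LSys D At Ct F ι) :
    ∃ (Y : Matrix I I ℂ) (l ε : I → ℂ), IsG D Y ∧ F * Y = Y * Matrix.diagonal l ∧
      ι * Y = Y * Matrix.diagonal ε ∧ ∀ i, l (D.τ i) * l i = 1 := by
  classical
  have hFι : IsG D (F * ι) := a1.G_mul D _ _ S.frob S.iota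
  obtain ⟨Y, n, hG, hNY, hn, hnτ, hj⟩ := rea hY a1 S.odd S.typ_eq S.csys S.pos hFι S.mten
  obtain ⟨hY1, hY2, hY3⟩ := a1.G_inv D Y hG
  obtain ⟨e', he⟩ : ∃ e' : I → I → ℂ, ∀ i, e' i = fun a => Y a i :=
    ⟨fun i a => Y a i, fun _ => rfl⟩
  have hcol : ∀ (M : Matrix I I ℂ) (c : I → ℂ), M * Y = Y * Matrix.diagonal c ↔
      ∀ i, M.mulVec (e' i) = c i • e' i := by
    intro M c
    constructor
    · intro h i
      funext a
      have h1 := congrFun (congrFun h a) i
      rw [Matrix.mul_diagonal] at h1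
      rw [he, Pi.smul_apply, smul_eq_mul, mul_comm, ← h1]
      rfl
    · intro h
      ext a i
      have h1 := congrFun (h i) a
      rw [he, Pi.smul_apply, smul_eq_mul, mul_comm] at h1
      rw [Matrix.mul_diagonal, ← h1]
      rfl
  have he0 : ∀ i, e' i ≠ 0 := by
    intro i h0
    have h1 := congrFun (congrFun hY3 i) i
    rw [Matrix.one_apply_eq, Matrix.mul_apply, Finset.sum_eq_zero] at h1
    · exact zero_ne_one h1
    · intro a _
      have h2 : Y a i = 0 := by
        have := congrFun h0 a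
        rwa [he] at this
      rw [h2, mul_zero]
  have hN := (hcol _ _).1 hNY
  have hev : ∀ (v : I → ℂ) (c : ℂ), v ≠ 0 → F.mulVec v = c • v →
      Module.End.HasEigenvalue (Matrix.toLin' F) c := by
    intro v c hv h
    refine Module.End.hasEigenvalue_of_hasEigenvector (x := v) ?_
    rw [Module.End.hasEigenvector_iff, Module.End.mem_eigenspace_iff, Matrix.toLin'_apply]
    exact ⟨h, hv⟩
  have hιι : ∀ v, ι.mulVec (ι.mulVec v) = v := by
    intro v
    rw [Matrix.mulVec_mulVec, S.sq, Matrix.one_mulVec]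
  have hFι' : ∀ v, F.mulVec (ι.mulVec v) = ι.mulVec (F.mulVec v) := by
    intro v
    rw [Matrix.mulVec_mulVec, Matrix.mulVec_mulVec, S.cm]
  have hFe' : ∀ i, F.mulVec (ι.mulVec (e' i)) = n i • e' i := by
    intro i
    rw [Matrix.mulVec_mulVec]
    exact hN i
  have hFe : ∀ i, F.mulVec (e' i) = n i • ι.mulVec (e' i) := by
    intro i
    have h2 := congrArg ι.mulVec (hFe' i)
    rwa [hFι', hιι, Matrix.mulVec_smul] at h2
  have hn0 : ∀ i, n i ≠ 0 := fun i h0 => by
    have h1 := hnτ i
    rw [h0, mul_zero] at h1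
    exact zero_ne_one h1
  -- one sign for each vector
  have hsg : ∀ i, ∃ s : ℂ, s * s = 1 ∧ ι.mulVec (e' i) = s • e' i := by
    intro i
    by_cases hp : e' i + ι.mulVec (e' i) = 0
    · refine ⟨-1, by ring, ?_⟩
      rw [neg_one_smul]
      exact (neg_eq_of_add_eq_zero_right hp).symm
    by_cases hm : e' i - ι.mulVec (e' i) = 0
    · refine ⟨1, by ring, ?_⟩
      rw [one_smul]
      exact (sub_eq_zero.1 hm).symm
    exfalso
    have h1 : F.mulVec (e' i + ι.mulVec (e' i)) = n i • (e' i + ι.mulVec (e' i)) := by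
      rw [Matrix.mulVec_add, hFe, hFe', smul_add, add_comm]
    have h2 : F.mulVec (e' i - ι.mulVec (e' i)) = (-n i) • (e' i - ι.mulVec (e' i)) := by
      rw [Matrix.mulVec_sub, hFe, hFe']
      module
    refine S.ratio (n i) (-n i) (hev _ _ hp h1) (hev _ _ hm h2) (fun h => hn0 i ?_) 2
      (by norm_num) (by ring)
    linear_combination (1 / 2 : ℂ) * h
  choose ε hε hιe using hsg
  have hιY : ι * Y = Y * Matrix.diagonal ε := (hcol _ _).2 hιe
  have hFY : F * Y = Y * Matrix.diagonal fun i => n i * ε i := by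
    rw [hcol]
    intro i
    rw [hFe, hιe, smul_smul]
  refine ⟨Y, fun i => n i * ε i, ε, hG, hFY, hιY, fun i => ?_⟩
  -- the matrix of `F` in the new basis is in the group
  have h1 : Y⁻¹ * F * Y = Matrix.diagonal fun i => n i * ε i := by
    rw [Matrix.mul_assoc, hFY, ← Matrix.mul_assoc, hY3, Matrix.one_mul]
  have h2 : IsG D (Matrix.diagonal fun i => n i * ε i) := by
    rw [← h1]
    exact a1.G_mul D _ _ (a1.G_mul D _ _ hY1 S.frob) hG
  exact isG_diag h2 i

/-- **Reducible words do not occur.** -/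
theorem red_zero (hY : YStatement) (a1 : Alg1) {F ι : Matrix I I ℂ}
    (S : LSys D At Ct F ι) {Y : Matrix I I ℂ} {l : I → ℂ} (hG : IsG D Y)
    (hFY : F * Y = Y * Matrix.diagonal l) (hlτ : ∀ i, l (D.τ i) * l i = 1) {L : ℕ}
    {v : Ten I L} (hv : ((0 : Ten I L), v) ∈ Cj At L) (w : Fin L → I)
    (hw : Red Ct fun k => l (w k)) : gT Y⁻¹ v w = 0 := by
  classical
  obtain ⟨hY1, hY2, hY3⟩ := a1.G_inv D Y hG
  obtain ⟨p, c, rfl, e, hpair, hcp⟩ := hw
  -- the stabiliser of the members of length two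
  have hblk : ∀ x, IsG D x → (∀ u, Ct 2 u → gT x u = u) →
      ∃ z : I → ℂ, Adm D l z ∧ Y⁻¹ * x * Y = Matrix.diagonal z := by
    intro x hx hxu
    obtain ⟨-, h3, h4⟩ := a1.G_inv D _ hx
    have h7 := S.comm x fun u hu => by
      have h6 := opM_gT S.odd a1 hx u
      rw [hxu u hu] at h6
      conv_rhs => rw [h6]
      rw [Matrix.mul_assoc (x * opM D u), h4, Matrix.mul_one]
    obtain ⟨z, hz, hz'⟩ := adjoin_diag hY3 hY2 hFY h7
    refine ⟨z, adm_of_isG hz ?_, hz'⟩
    rw [← hz']
    exact a1.G_mul D _ _ (a1.G_mul D _ _ hY1 hx) hG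
  obtain ⟨v', hv'⟩ : ∃ v' : Ten I (p + c), v' = permT e.symm v := ⟨_, rfl⟩
  obtain ⟨wP, hwP⟩ : ∃ wP : Fin p → I, wP = fun i => w (e (Fin.castAdd c i)) := ⟨_, rfl⟩
  obtain ⟨wR, hwR⟩ : ∃ wR : Fin c → I, wR = fun i => w (e (Fin.natAdd p i)) := ⟨_, rfl⟩
  have hw' : Fin.append wP wR = w ∘ e := by
    funext i
    refine Fin.addCases (fun i => ?_) (fun i => ?_) i
    · rw [Fin.append_left, hwP]
      rfl
    · rw [Fin.append_right, hwR]
      rfl
  obtain ⟨u, hu⟩ : ∃ u : Ten I (p + c), u = gT Y⁻¹ v' := ⟨_, rfl⟩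
  have hvu : gT Y u = v' := by
    rw [hu]
    exact psi_outer_gT a1 hG v'
  have hval : gT Y⁻¹ v w = u (Fin.append wP wR) := by
    rw [hu, hv', AL2.perm_gT, hw']
    show _ = gT Y⁻¹ v ((w ∘ e) ∘ e.symm)
    congr 1
    funext i
    simp
  rw [hval]
  have hone : ∀ z, Adm D l z → ∏ i, z ((D.τ ∘ wP) i) = 1 := by
    intro z hz
    have h1 : ∏ i, z (wP i) = 1 := by
      refine prod_one hlτ hz wP ?_
      rw [hwP]
      exact hpair
    have h2 : (∏ i, z ((D.τ ∘ wP) i)) * ∏ i, z (wP i) = 1 := by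
      rw [← Finset.prod_mul_distrib]
      exact Finset.prod_eq_one fun k _ => hz.2 (wP k)
    rwa [h1, mul_one] at h2
  have hδ : gT Y (Pi.single (D.τ ∘ wP) 1 : Ten I p) ∈ CA Ct p := by
    refine fft_two hY a1 S.csys S.odd S.pos fun x hx hxu => ?_
    obtain ⟨z, hz, hxz⟩ := hblk x hx hxu
    have h1 : x * Y = Y * Matrix.diagonal z := by
      rw [← hxz, ← Matrix.mul_assoc, ← Matrix.mul_assoc, hY2, Matrix.one_mul]
    rw [← gT_mul, h1, gT_mul]
    congr 1
    funext w'
    rw [gT_dia]
    by_cases hw' : w' = D.τ ∘ wP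
    · rw [hw', hone z hz, one_mul]
    · rw [Pi.single_eq_of_ne hw', mul_zero]
  have hcj : ((0 : Ten I (p + c)), v') ∈ Cj Ct (p + c) := by
    rw [hv']
    exact cj_perm S.csys e.symm (cj_mono S.sub hv)
  have h1 : cont D (gT Y (Pi.single (D.τ ∘ wP) 1 : Ten I p)) v' = 0 := by
    refine cont_zero_of (fun t ht => hcp _ ?_) hδ
    have h2 := cj_cont S.csys ht hcj
    have h3 : cont D t (0 : Ten I (p + c)) = 0 := by
      funext w
      simp [cont]
    rwa [h3] at h2
  rw [← hvu, ← AL2.cont_gT D Y _ u hG] at h1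
  have h4 : cont D (Pi.single (D.τ ∘ wP) 1 : Ten I p) u = 0 := by
    apply inj a1 hG
    rw [h1]
    have h5 := gT_smul Y (0 : ℂ) (0 : Ten I c)
    rw [zero_smul, zero_smul] at h5
    exact h5.symm
  have h5 := congrFun h4 wR
  rw [cont_single] at h5
  have h6 := sg_mul_self D (D.τ ∘ wP)
  calc u (Fin.append wP wR) = (sg D (D.τ ∘ wP) * sg D (D.τ ∘ wP)) * u (Fin.append wP wR) := by
        rw [h6, one_mul]
    _ = sg D (D.τ ∘ wP) * (sg D (D.τ ∘ wP) * u (Fin.append wP wR)) := by ring
    _ = 0 := by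
        rw [h5]
        simp

end Pool.Agent.Lib.MP_361a6f_ag.FL.E.Inj
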