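import Pool.Agent.Lib.MP_361a6f_ag.FL.E.I.Tor

/-!
# Theorem I in coordinates: nondegeneracy in one length, modulo projectors

It is enough that relations may be conjugated up to tensors fixed by projectors `p s`, if no
isotropic stable subspace except `0` is fixed by all `p s`.
-/

open Matrix

set_option autoImplicit false
set_option linter.unusedSectionVars false

namespace Pool.Agent.Lib.MP_361a6f_ag.FL.E.Inj

open Nd NdZ Rot
open OL (CA)
open AL1A (gT_mul gT_add gT_smul)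
open AL1B (gT_one)

variable {I Λ : Type} [Fintype I] [DecidableEq I] [DecidableEq Λ] {D : Dat I Λ}
  {At : (L : ℕ) → Ten I L → Prop}

theorem slT_perm {L : ℕ} (N : Fin L → Matrix I I ℂ) (σ : Equiv.Perm (Fin L)) (u : Ten I L) :
    slT (fun k => N (σ.symm k)) (permT σ u) = permT σ (slT N u) := by
  funext w
  unfold slT permT
  rw [← (Equiv.arrowCongr σ (Equiv.refl I)).sum_comp]
  refine Finset.sum_congr rfl fun a _ => ?_
  have e1 : (Equiv.arrowCongr σ (Equiv.refl I)) a ∘ σ = a := by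
    funext i
    simp [Equiv.arrowCongr]
  rw [e1]
  congr 1
  refine (Equiv.prod_comp σ _).symm.trans (Finset.prod_congr rfl fun i _ => ?_)
  simp [Equiv.arrowCongr]

theorem perm_CA (S : ASys D At) {L : ℕ} (σ : Equiv.Perm (Fin L)) {u : Ten I L}
    (hu : u ∈ CA At L) : permT σ u ∈ CA At L := by
  unfold CA at hu ⊢
  induction hu using Submodule.span_induction with
  | mem u hu => exact Submodule.subset_span (S.perm L σ u hu)
  | zero => exact zero_mem _
  | add a b _ _ ha hb => exact add_mem ha hb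
  | smul c a _ ha => exact Submodule.smul_mem _ c ha

/-- a tensor with an idempotent in the first slot -/
theorem slc_idem {n : ℕ} {N : Fin (1 + n) → Matrix I I ℂ}
    (hN : N (Fin.castAdd n 0) * N (Fin.castAdd n 0) = N (Fin.castAdd n 0)) {u : Ten I (1 + n)}
    (hu : slT N u = u) (b : Fin n → I) : (N (Fin.castAdd n 0)).mulVec (slc u b) = slc u b := by
  have h1 := slc_slT N u b
  rw [hu] at h1
  rw [h1, Matrix.mulVec_sum]
  refine Finset.sum_congr rfl fun b' _ => ?_
  rw [Matrix.mulVec_smul, Matrix.mulVec_mulVec, hN]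

/-- **Nothing with an isotropic first factor is fixed by the projectors.** -/
theorem tor_iso (a1 : Alg1) (S : ASys D At) (ho : ∀ i, D.odd (D.typ i))
    (he : ∀ i j, D.typ i = D.typ j) (Γ : Set (Matrix I I ℂ)) (grp : ∀ x ∈ Γ, IsG D x)
    (gfix : ∀ x ∈ Γ, ∀ L u, At L u → gT x u = u) {J : Type*} {p : J → Matrix I I ℂ}
    (hpp : ∀ s, p s * p s = p s) (hpc : ∀ s z, At 2 z → p s * opM D z = opM D z * p s)
    (bad : ∀ U : Submodule ℂ (I → ℂ), StabU D At Γ U →
      (∀ v ∈ U, ∀ w ∈ U, dotProduct v ((Psi D).mulVec w) = 0) →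
      (∀ s, ∀ x ∈ U, (p s).mulVec x = x) → U = ⊥)
    {n : ℕ} {u : Ten I (1 + n)} (hu : u ∈ CA At (1 + n)) (hp : ∀ s, gT (p s) u = u)
    {e : Matrix I I ℂ} (hec : ∀ z, At 2 z → e * opM D z = opM D z * e)
    (heb : e.transpose * Psi D * e = 0) (hsl : ∀ b, e.mulVec (slc u b) = slc u b) : u = 0 := by
  refine tor (J := Option J) (p := fun o => o.elim e p) a1 S ho he Γ grp gfix ?_ ?_ hu ?_
  · rintro (_ | s) z hz
    · exact hec z hz
    · exact hpc s z hz
  · intro U hU hUp
    refine bad U hU (fun v hv w hw => ?_) fun s => hUp (some s)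
    have h1 : e.mulVec v = v := hUp none v hv
    have h2 : e.mulVec w = w := hUp none w hw
    rw [← h1, ← h2, ← Matrix.vecMul_transpose, ← Matrix.dotProduct_mulVec, Matrix.mulVec_mulVec,
      Matrix.mulVec_mulVec, heb, Matrix.zero_mulVec, dotProduct_zero]
  · rintro (_ | s) b
    · exact hsl b
    · exact slc_idem (N := fun _ => p s) (hpp s) (hp s) b

/-- **Nondegeneracy in one length, modulo projectors.** -/
theorem nd_of_proj (hY : YStatement) (a1 : Alg1) (S : ASys D At) (ho : ∀ i, D.odd (D.typ i))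
    (he : ∀ i j, D.typ i = D.typ j) (Γ : Set (Matrix I I ℂ)) (grp : ∀ x ∈ Γ, IsG D x)
    (gfix : ∀ x ∈ Γ, ∀ L u, At L u → gT x u = u)
    (orbit : ∀ U : Submodule ℂ (I → ℂ),
      (∀ z, At 2 z → ∀ v ∈ U, (opM D z).mulVec v ∈ U) →
      {U' : Submodule ℂ (I → ℂ) | ∃ x ∈ Γ, U' = U.map (Matrix.toLin' x)}.Finite →
      ∃ e ∈ endS D At, e * e = e ∧ (∀ z, At 2 z → e * opM D z = opM D z * e) ∧
        U = LinearMap.range (Matrix.toLin' e))
    (hpos : ∀ u, At 2 u → u ≠ 0 → ∃ q : ℚ, 0 < q ∧ psiT D u u = (q : ℂ))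
    {J : Type*} {p : J → Matrix I I ℂ}
    (hpp : ∀ s, p s * p s = p s) (hpc : ∀ s z, At 2 z → p s * opM D z = opM D z * p s)
    (bad : ∀ U : Submodule ℂ (I → ℂ), StabU D At Γ U →
      (∀ v ∈ U, ∀ w ∈ U, dotProduct v ((Psi D).mulVec w) = 0) →
      (∀ s, ∀ x ∈ U, (p s).mulVec x = x) → U = ⊥)
    {L : ℕ}
    (hconj : ∀ v : Ten I L, ((0 : Ten I L), v) ∈ Cj At L → ∀ s, gT (p s) v = v) :
    ∀ u ∈ CA At L, u ≠ 0 → ∃ v ∈ CA At L, psiT D u v ≠ 0 := by
  intro t0 ht0 h0
  by_contra hcon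
  push Not at hcon
  obtain ⟨g, hg, hfix⟩ := exists_real hY a1 S ho hpos
  obtain ⟨T, iF, iD, f, bar, F⟩ := exists_fam S ho he
  have hf : ∀ s, (f s, f (bar s)) ∈ Cm D At := by
    intro s
    obtain ⟨N, hN⟩ := cm_exists (F.cen s).mem
    have h1 := cm_cen S ho a1 hg hfix (F.cen s) (F.idem s) hN
    rw [F.dag] at h1
    rwa [h1] at hN
  -- a component in the kernel
  have hk0 : t0 ∈ Kr D At L := ⟨ht0, hcon⟩
  obtain ⟨κ, hκ⟩ : ∃ κ : Fin L → T, wd f κ t0 ≠ 0 := by
    by_contra h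
    push Not at h
    apply h0
    rw [← sum_wd F t0]
    exact Finset.sum_eq_zero fun κ _ => h κ
  obtain ⟨t, ht⟩ : ∃ t, t = wd f κ t0 := ⟨_, rfl⟩
  have htk : t ∈ Kr D At L := by rw [ht]; exact wd_kr S ho he F κ hk0
  have htw : wd f κ t = t := by rw [ht]; exact wd_wd F κ t0
  have ht1 : t ≠ 0 := by rw [ht]; exact hκ
  obtain ⟨ω, hω, hω'⟩ := exists_om S ho he Γ grp gfix orbit F L
  have e1 := hω' κ t htk htw ht1
  -- its conjugate
  obtain ⟨v, hv⟩ := cj_exists htk.1
  have hv1 : (wd f κ t, wd f (fun i => bar (κ i)) v) ∈ Cj At L :=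
    cj_slT S ho he (fun i => hf (κ i)) hv
  rw [htw] at hv1
  obtain ⟨v', hv'⟩ : ∃ v', v' = wd f (fun i => bar (κ i)) v := ⟨_, rfl⟩
  rw [← hv'] at hv1
  have hv2 : v' ≠ 0 := by
    rintro h
    rw [h] at hv1
    have hpt := hconj t (cj_swap hv1)
    -- a slot of positive weight
    obtain ⟨r, hr⟩ : ∃ r, 0 < ω (κ r) := by
      by_contra hc
      push Not at hc
      have := Finset.sum_nonpos fun a (_ : a ∈ Finset.univ) => hc a
      linarith
    have hbar : bar (κ r) ≠ κ r := by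
      intro hb
      have h1 := hω (κ r)
      rw [hb] at h1
      linarith
    obtain ⟨n, rfl⟩ : ∃ n, L = 1 + n := ⟨L - 1, by
      have := r.2
      omega⟩
    apply ht1
    obtain ⟨σ, hσ⟩ : ∃ σ : Equiv.Perm (Fin (1 + n)), σ.symm (Fin.castAdd n 0) = r :=
      ⟨Equiv.swap (Fin.castAdd n 0) r, by simp⟩
    have hu0 : permT σ t = 0 := by
      refine tor_iso a1 S ho he Γ grp gfix hpp hpc bad (perm_CA S σ htk.1) (fun s => ?_)
        (e := f (κ r)) (fun z hz => (F.cen (κ r)).comm _ (Submodule.subset_span ⟨z, hz, rfl⟩))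
        ?_ ?_
      · rw [AL2.perm_gT, hpt s]
      · have h1 : Psi D * f (bar (κ r)) = (f (κ r)).transpose * Psi D := by
          rw [Psi_mul_eq ho, F.dag, F.bar_bar]
        rw [← h1, Matrix.mul_assoc, F.orth _ _ hbar, Matrix.mul_zero]
      · have h2 : slT (fun k => f (κ (σ.symm k))) (permT σ t) = permT σ t := by
          rw [slT_perm (fun i => f (κ i)) σ t]
          exact congrArg (permT σ) htw
        intro b
        have h3 := slc_idem (N := fun k => f (κ (σ.symm k))) (F.idem _) h2 b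
        rwa [hσ] at h3
    have h5 : permT σ.symm (permT σ t) = t := by
      funext w
      unfold permT
      congr 1
      funext i
      simp
    rw [← h5, hu0]
    rfl
  have hv3 : wd f (fun i => bar (κ i)) v' = v' := by
    rw [hv']
    exact wd_wd F _ v
  have e2 := hω' (fun i => bar (κ i)) v' (cj_kr S hv1 htk) hv3 hv2
  have e3 : ∑ a, (ω (κ a) + ω (bar (κ a))) ≤ 0 :=
    Finset.sum_nonpos fun a _ => (hω (κ a)).trans (by norm_num)
  rw [Finset.sum_add_distrib] at e3
  linarith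

end Pool.Agent.Lib.MP_361a6f_ag.FL.E.Inj
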