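import Pool.Agent.Lib.MP_361a6f_ag.FL.E.I.Plc

/-!
# One place: the letters of one slot

Let `f` be idempotents, one for each slot, and `v` a combination of members fixed by them whose
conjugate combination vanishes. If all words of letters of the `f m` with the letter `(c, e)` in the
slot `a` are reducible then the letter `(c, e)` does not occur in the slot `a` of `v`.
-/

open Matrix

set_option autoImplicit false
set_option linter.unusedSectionVars false

namespace Pool.Agent.Lib.MP_361a6f_ag.FL.E.Inj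

open Nd NdZ Rot QS
open OL (CA)
open AL1A (gT_mul gT_add gT_smul)
open AL1B (gT_one)

variable {I Λ : Type} [Fintype I] [DecidableEq I] [DecidableEq Λ] {D : Dat I Λ}
  {At Ct : (L : ℕ) → Ten I L → Prop}

/-- `F` is `b` and `ι` is `e` on a vector in the image of `f` -/
def Lett (F ι f : Matrix I I ℂ) (b e : ℂ) : Prop :=
  ∃ y : I → ℂ, y ≠ 0 ∧ f.mulVec y = y ∧ F.mulVec y = b • y ∧ ι.mulVec y = e • y

/-- the word with one letter in the first slot -/
theorem slc_word {n : ℕ} (u : Ten I (1 + n)) (σ : Equiv.Perm (Fin (1 + n))) (w : Fin (1 + n) → I) :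
    slc (permT σ u) (fun c => w (σ.symm (Fin.natAdd 1 c))) (w (σ.symm (Fin.castAdd n 0)))
      = u w := by
  unfold slc permT
  congr 1
  funext i
  show Fin.append (fun _ : Fin 1 => w (σ.symm (Fin.castAdd n 0)))
    (fun c => w (σ.symm (Fin.natAdd 1 c))) (σ i) = w i
  have h : Fin.append (fun _ : Fin 1 => w (σ.symm (Fin.castAdd n 0)))
      (fun c => w (σ.symm (Fin.natAdd 1 c))) = fun i => w (σ.symm i) := by
    funext i
    refine Fin.addCases (fun j => ?_) (fun j => ?_) i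
    · rw [Fin.append_left, Subsingleton.elim j 0]
    · rw [Fin.append_right]
  rw [h]
  simp

theorem slT_gT' {L : ℕ} (x : Matrix I I ℂ) (N : Fin L → Matrix I I ℂ) (u : Ten I L) :
    gT x (slT N u) = slT (fun m => x * N m) u := by
  have h1 : gT x (slT N u) = slT (fun _ => x) (slT N u) := rfl
  rw [h1, slT_slT]

theorem slT_gT {L : ℕ} (x : Matrix I I ℂ) (N : Fin L → Matrix I I ℂ) (u : Ten I L) :
    slT N (gT x u) = slT (fun m => N m * x) u := by
  have h1 : gT x u = slT (fun _ => x) u := rfl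
  rw [h1, slT_slT]

/-- conjugation with an invertible matrix -/
theorem conj_comm {Y M f : Matrix I I ℂ} {c : I → ℂ} (hY2 : Y * Y⁻¹ = 1) (hY3 : Y⁻¹ * Y = 1)
    (hM : M * Y = Y * Matrix.diagonal c) (h : f * M = M * f) :
    Matrix.diagonal c * (Y⁻¹ * f * Y) = Y⁻¹ * f * Y * Matrix.diagonal c := by
  have h1 : Y⁻¹ * M * Y = Matrix.diagonal c := by
    rw [Matrix.mul_assoc, hM, ← Matrix.mul_assoc, hY3, Matrix.one_mul]
  have hc : ∀ A B : Matrix I I ℂ, Y⁻¹ * A * Y * (Y⁻¹ * B * Y) = Y⁻¹ * (A * B) * Y := by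
    intro A B
    calc Y⁻¹ * A * Y * (Y⁻¹ * B * Y) = Y⁻¹ * A * (Y * Y⁻¹) * B * Y := by
          simp only [Matrix.mul_assoc]
      _ = _ := by rw [hY2, Matrix.mul_one]; simp only [Matrix.mul_assoc]
  rw [← h1, hc, hc, h]

/-- the letters of a tensor fixed by idempotents -/
theorem lett_of {F ι Y : Matrix I I ℂ} {l ε : I → ℂ} (hY2 : Y * Y⁻¹ = 1) (hY3 : Y⁻¹ * Y = 1)
    (hFY : F * Y = Y * Matrix.diagonal l) (hιY : ι * Y = Y * Matrix.diagonal ε) {n : ℕ}
    {f : Fin (1 + n) → Matrix I I ℂ} (hfi : ∀ m, f m * f m = f m)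
    (hfF : ∀ m, f m * F = F * f m) (hfι : ∀ m, f m * ι = ι * f m) {v : Ten I (1 + n)}
    (hfv : slT f v = v) {w : Fin (1 + n) → I} (hw : gT Y⁻¹ v w ≠ 0) (m : Fin (1 + n)) :
    Lett F ι (f m) (l (w m)) (ε (w m)) := by
  classical
  obtain ⟨u, hu⟩ : ∃ u, u = gT Y⁻¹ v := ⟨_, rfl⟩
  obtain ⟨N, hN⟩ : ∃ N : Fin (1 + n) → Matrix I I ℂ, N = fun m => Y⁻¹ * f m * Y := ⟨_, rfl⟩
  have hNN : ∀ m, N m * N m = N m := by
    intro m
    rw [hN]
    show Y⁻¹ * f m * Y * (Y⁻¹ * f m * Y) = _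
    calc Y⁻¹ * f m * Y * (Y⁻¹ * f m * Y) = Y⁻¹ * f m * (Y * Y⁻¹) * f m * Y := by
          simp only [Matrix.mul_assoc]
      _ = Y⁻¹ * (f m * f m) * Y := by rw [hY2, Matrix.mul_one]; simp only [Matrix.mul_assoc]
      _ = _ := by rw [hfi]
  have hNu : slT N u = u := by
    rw [hu, slT_gT]
    have h1 : (fun m => N m * Y⁻¹) = fun m => Y⁻¹ * f m := by
      funext m
      rw [hN]
      show Y⁻¹ * f m * Y * Y⁻¹ = _
      rw [Matrix.mul_assoc, hY2, Matrix.mul_one]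
    rw [h1, ← slT_gT', hfv]
  obtain ⟨σ, hσ⟩ : ∃ σ : Equiv.Perm (Fin (1 + n)), σ.symm (Fin.castAdd n 0) = m :=
    ⟨Equiv.swap (Fin.castAdd n 0) m, by simp⟩
  obtain ⟨x, hx⟩ : ∃ x : I → ℂ, x = slc (permT σ u) (fun c => w (σ.symm (Fin.natAdd 1 c))) :=
    ⟨_, rfl⟩
  have hxw : x (w m) ≠ 0 := by
    have h1 := slc_word u σ w
    rw [← hx, hσ] at h1
    rw [h1, hu]
    exact hw
  have hNx : (N m).mulVec x = x := by
    have h2 : slT (fun k => N (σ.symm k)) (permT σ u) = permT σ u := by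
      rw [slT_perm N σ u, hNu]
    have h3 := slc_idem (N := fun k => N (σ.symm k)) (hNN _) h2
      (fun c => w (σ.symm (Fin.natAdd 1 c)))
    rw [hx]
    simpa only [hσ] using h3
  obtain ⟨χ, hχ⟩ : ∃ χ : I → ℂ, χ = fun i => if l i = l (w m) ∧ ε i = ε (w m) then (1 : ℂ) else 0 :=
    ⟨_, rfl⟩
  have hχl : ∀ i j, l i = l j → ε i = ε j → χ i = χ j := by
    intro i j h1 h2
    rw [hχ]
    simp only [h1, h2]
  have hc : Matrix.diagonal χ * N m = N m * Matrix.diagonal χ := by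
    rw [hN]
    exact comm_diag hχl (conj_comm hY2 hY3 hFY (hfF m)) (conj_comm hY2 hY3 hιY (hfι m))
  obtain ⟨x', hx'⟩ : ∃ x' : I → ℂ, x' = (Matrix.diagonal χ).mulVec x := ⟨_, rfl⟩
  have hx'w : x' (w m) ≠ 0 := by
    rw [hx', Matrix.mulVec_diagonal, hχ]
    simpa using hxw
  have heig : ∀ c : I → ℂ, (∀ i, χ i ≠ 0 → c i = c (w m)) →
      (Matrix.diagonal c).mulVec x' = c (w m) • x' := by
    intro c hc
    funext i
    rw [hx', Matrix.mulVec_diagonal, Pi.smul_apply, Matrix.mulVec_diagonal, smul_eq_mul]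
    by_cases hi : χ i = 0
    · rw [hi]
      ring
    · rw [hc i hi]
  have hχ0 : ∀ i, χ i ≠ 0 → l i = l (w m) ∧ ε i = ε (w m) := by
    intro i hi
    by_contra h
    apply hi
    rw [hχ]
    exact if_neg h
  refine ⟨Y.mulVec x', fun h0 => hx'w ?_, ?_, ?_, ?_⟩
  · have h1 : x' = (Y⁻¹).mulVec (Y.mulVec x') := by
      rw [Matrix.mulVec_mulVec, hY3, Matrix.one_mulVec]
    rw [h1, h0, Matrix.mulVec_zero]
    rfl
  · have h1 : f m * Y = Y * N m := by
      rw [hN]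
      show f m * Y = Y * (Y⁻¹ * f m * Y)
      rw [← Matrix.mul_assoc, ← Matrix.mul_assoc, hY2, Matrix.one_mul]
    rw [Matrix.mulVec_mulVec, h1, ← Matrix.mulVec_mulVec]
    congr 1
    rw [hx', Matrix.mulVec_mulVec, ← hc, ← Matrix.mulVec_mulVec, hNx]
  · rw [Matrix.mulVec_mulVec, hFY, ← Matrix.mulVec_mulVec, heig l fun i hi => (hχ0 i hi).1,
      Matrix.mulVec_smul]
  · rw [Matrix.mulVec_mulVec, hιY, ← Matrix.mulVec_mulVec, heig ε fun i hi => (hχ0 i hi).2,
      Matrix.mulVec_smul]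

/-- **One place and one slot.** -/
theorem place_slot (hY : YStatement) (a1 : Alg1) {F ι : Matrix I I ℂ}
    (S : LSys D At Ct F ι) {n : ℕ} (hιL : ∀ u, At (1 + n) u → gT ι u = u)
    {f : Fin (1 + n) → Matrix I I ℂ} (hfi : ∀ m, f m * f m = f m)
    (hfF : ∀ m, f m * F = F * f m) (hfι : ∀ m, f m * ι = ι * f m) (a : Fin (1 + n)) {c e : ℂ}
    (hred : ∀ b ε : Fin (1 + n) → ℂ, (∀ m, Lett F ι (f m) (b m) (ε m)) → b a = c → ε a = e →
      ∏ m, b m = 1 → ∏ m, ε m = 1 → Red Ct b)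
    {v : Ten I (1 + n)} (hv : ((0 : Ten I (1 + n)), v) ∈ Cj At (1 + n)) (hfv : slT f v = v) :
    ∃ P : Matrix I I ℂ, (∀ z, At 2 z → P * opM D z = opM D z * P) ∧
      (∀ σ : Equiv.Perm (Fin (1 + n)), σ.symm (Fin.castAdd n 0) = a →
        ∀ b, P.mulVec (slc (permT σ v) b) = slc (permT σ v) b) ∧
      ∀ y : I → ℂ, F.mulVec y = c • y → ι.mulVec y = e • y → P.mulVec y = 0 := by
  classical
  obtain ⟨Y, l, ε, hG, hFY, hιY, hlτ⟩ := joint hY a1 S
  obtain ⟨hY1, hY2, hY3⟩ := a1.G_inv D Y hG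
  obtain ⟨χ, hχ⟩ : ∃ χ : I → ℂ, χ = fun i => if l i = c ∧ ε i = e then (0 : ℂ) else 1 := ⟨_, rfl⟩
  have hχl : ∀ i j, l i = l j → ε i = ε j → χ i = χ j := by
    intro i j h1 h2
    rw [hχ]
    simp only [h1, h2]
  obtain ⟨P, hP⟩ : ∃ P : Matrix I I ℂ, P = Y * Matrix.diagonal χ * Y⁻¹ := ⟨_, rfl⟩
  have hPY : P * Y = Y * Matrix.diagonal χ := by
    rw [hP, Matrix.mul_assoc, hY3, Matrix.mul_one]
  obtain ⟨u, hu⟩ : ∃ u : Ten I (1 + n), u = gT Y⁻¹ v := ⟨_, rfl⟩
  have hvu : gT Y u = v := by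
    rw [hu]
    exact psi_outer_gT a1 hG v
  have hvA : v ∈ CA At (1 + n) := cj_left (cj_swap hv)
  have hdiag : ∀ (M : Matrix I I ℂ) (c : I → ℂ), M * Y = Y * Matrix.diagonal c →
      gT M v = v → gT (Matrix.diagonal c) u = u := by
    intro M c hM h
    apply inj a1 hG
    rw [← gT_mul, ← hM, gT_mul, hvu]
    exact h
  have hFu := hdiag F l hFY (gT_fix (fun L u => S.fix L u) hvA)
  have hιu := hdiag ι ε hιY (gT_fix_len hιL hvA)
  -- the letter does not occur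
  have hno : ∀ w : Fin (1 + n) → I, l (w a) = c → ε (w a) = e → u w = 0 := by
    intro w h1 h2
    by_contra h0
    have h3 : gT Y⁻¹ v w ≠ 0 := by rwa [← hu]
    refine h3 (red_zero hY a1 S hG hFY hlτ hv w (hred (fun m => l (w m)) (fun m => ε (w m))
      (fun m => lett_of hY2 hY3 hFY hιY hfi hfF hfι hfv h3 m) h1 h2 ?_ ?_))
    · have h := congrFun hFu w
      rw [gT_dia] at h
      exact mul_right_cancel₀ h0 (by rw [h, one_mul])
    · have h := congrFun hιu w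
      rw [gT_dia] at h
      exact mul_right_cancel₀ h0 (by rw [h, one_mul])
  refine ⟨P, fun z hz => ?_, fun σ hσ b => ?_, fun y hFy hιy => ?_⟩
  · have h1 := comm_of_fix S.odd a1 S.frob S.fix hz
    have h2 := comm_of_two S.odd a1 S.iota (S.ifix2 z hz)
    have h4 := comm_diag hχl (conj_comm hY2 hY3 hFY h1.symm) (conj_comm hY2 hY3 hιY h2.symm)
    have h5 : ∀ M : Matrix I I ℂ, Y * (Y⁻¹ * M * Y) = M * Y := by
      intro M
      rw [← Matrix.mul_assoc, ← Matrix.mul_assoc, hY2, Matrix.one_mul]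
    have h6 := congrArg (fun M => Y * M * Y⁻¹) h4
    have h7 : Y * (Matrix.diagonal χ * (Y⁻¹ * opM D z * Y)) * Y⁻¹ = P * opM D z := by
      rw [← Matrix.mul_assoc, ← hPY, Matrix.mul_assoc P, h5, Matrix.mul_assoc, Matrix.mul_assoc,
        hY2, Matrix.mul_one]
    have h8 : Y * (Y⁻¹ * opM D z * Y * Matrix.diagonal χ) * Y⁻¹ = opM D z * P := by
      rw [← Matrix.mul_assoc, h5, Matrix.mul_assoc (opM D z), ← hPY, ← Matrix.mul_assoc,
        Matrix.mul_assoc (opM D z * P), hY2, Matrix.mul_one]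
    rw [← h7, ← h8]
    exact h6
  · have h1 : permT σ v = gT Y (permT σ u) := by
      rw [AL2.perm_gT, hvu]
    rw [h1, slc_gT, Matrix.mulVec_sum]
    refine Finset.sum_congr rfl fun b' _ => ?_
    rw [Matrix.mulVec_smul, Matrix.mulVec_mulVec, hPY, ← Matrix.mulVec_mulVec]
    congr 2
    funext i
    rw [Matrix.mulVec_diagonal, hχ]
    show (if l i = c ∧ ε i = e then (0 : ℂ) else 1) * _ = _
    by_cases hi : l i = c ∧ ε i = e
    · rw [if_pos hi, zero_mul]
      symm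
      show permT σ u (Fin.append (fun _ : Fin 1 => i) b') = 0
      have h2 : (Fin.append (fun _ : Fin 1 => i) b' ∘ σ) a = i := by
        show Fin.append (fun _ : Fin 1 => i) b' (σ a) = i
        rw [← hσ, Equiv.apply_symm_apply, Fin.append_left]
      refine hno (Fin.append (fun _ : Fin 1 => i) b' ∘ σ) ?_ ?_
      · rw [h2]
        exact hi.1
      · rw [h2]
        exact hi.2
    · rw [if_neg hi, one_mul]
  · obtain ⟨x, hx⟩ : ∃ x : I → ℂ, x = (Y⁻¹).mulVec y := ⟨_, rfl⟩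
    have hYx : Y.mulVec x = y := by
      rw [hx, Matrix.mulVec_mulVec, hY2, Matrix.one_mulVec]
    have hd : ∀ (M : Matrix I I ℂ) (c : I → ℂ) (t : ℂ), M * Y = Y * Matrix.diagonal c →
        M.mulVec y = t • y → ∀ i, x i ≠ 0 → c i = t := by
      intro M c t hM h i hi
      have h1 : Y⁻¹ * M * Y = Matrix.diagonal c := by
        rw [Matrix.mul_assoc, hM, ← Matrix.mul_assoc, hY3, Matrix.one_mul]
      have h2 : (Matrix.diagonal c).mulVec x = t • x := by
        rw [← h1, ← Matrix.mulVec_mulVec, hYx, ← Matrix.mulVec_mulVec, h, Matrix.mulVec_smul, hx]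
      have h3 := congrFun h2 i
      rw [Matrix.mulVec_diagonal, Pi.smul_apply, smul_eq_mul] at h3
      exact mul_right_cancel₀ hi h3
    have h3 : (Matrix.diagonal χ).mulVec x = 0 := by
      funext i
      rw [Matrix.mulVec_diagonal, Pi.zero_apply]
      by_cases hxi : x i = 0
      · rw [hxi, mul_zero]
      · rw [hχ]
        show (if l i = c ∧ ε i = e then (0 : ℂ) else 1) * _ = _
        rw [if_pos ⟨hd F l c hFY hFy i hxi, hd ι ε e hιY hιy i hxi⟩, zero_mul]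
    rw [← hYx, Matrix.mulVec_mulVec, hPY, ← Matrix.mulVec_mulVec, h3, Matrix.mulVec_zero]

end Pool.Agent.Lib.MP_361a6f_ag.FL.E.Inj
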