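import Pool.Agent.Lib.MP_361a6f_ag.FL.E.I.Cnj
import Pool.Agent.Lib.MP_361a6f_ag.FL.E.DefsH

/-!
# Theorem I in coordinates: the vectors of the first slot

The vectors of the first slot of a combination of members generate a stable subspace.
-/

open Matrix

set_option autoImplicit false
set_option linter.unusedSectionVars false

namespace Pool.Agent.Lib.MP_361a6f_ag.FL.E.Inj

open Nd NdZ Rot
open OL (CA)
open AL1A (gT_mul gT_add gT_smul)
open AL1B (gT_one)

variable {I Λ : Type} [Fintype I] [DecidableEq I] [DecidableEq Λ] {D : Dat I Λ}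
  {At : (L : ℕ) → Ten I L → Prop}

/-- the vectors of the first slot -/
def slc {n : ℕ} (u : Ten I (1 + n)) (b : Fin n → I) : I → ℂ :=
  fun i => u (Fin.append (fun _ : Fin 1 => i) b)

theorem slc_slT {n : ℕ} (N : Fin (1 + n) → Matrix I I ℂ) (u : Ten I (1 + n)) (b : Fin n → I) :
    slc (slT N u) b = ∑ b' : Fin n → I, (∏ c, N (Fin.natAdd 1 c) (b c) (b' c)) •
      (N (Fin.castAdd n 0)).mulVec (slc u b') := by
  funext i
  unfold slc slT
  rw [AL2.sum_append, Finset.sum_comm, Finset.sum_apply]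
  refine Finset.sum_congr rfl fun b' _ => ?_
  rw [Pi.smul_apply, smul_eq_mul, Matrix.mulVec, dotProduct, Finset.mul_sum]
  refine Fintype.sum_equiv (Equiv.funUnique (Fin 1) I) _ _ fun a => ?_
  rw [Fin.prod_univ_add, Fin.prod_univ_one]
  simp only [Fin.append_left, Fin.append_right]
  have h1 : (fun _ : Fin 1 => (Equiv.funUnique (Fin 1) I) a) = a := by
    funext j
    rw [Subsingleton.elim j 0]
    rfl
  rw [h1]
  change N (Fin.castAdd n 0) i (a 0) * _ * _ = _ * (N (Fin.castAdd n 0) i (a 0) * _)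
  ring

theorem slc_gT {n : ℕ} (x : Matrix I I ℂ) (u : Ten I (1 + n)) (b : Fin n → I) :
    slc (gT x u) b = ∑ b' : Fin n → I, (∏ c, x (b c) (b' c)) • x.mulVec (slc u b') :=
  slc_slT (fun _ => x) u b

theorem slc_zero {n : ℕ} {u : Ten I (1 + n)} (h : ∀ b, slc u b = 0) : u = 0 := by
  funext w
  have h1 := congrFun (h fun c => w (Fin.natAdd 1 c)) (w 0)
  have h2 : Fin.append (fun _ : Fin 1 => w 0) (fun c => w (Fin.natAdd 1 c)) = w := by
    funext i
    refine Fin.addCases (fun j => ?_) (fun j => ?_) i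
    · rw [Fin.append_left, Subsingleton.elim j 0]
      rfl
    · rw [Fin.append_right]
  unfold slc at h1
  rw [h2] at h1
  exact h1

/-- elements of the group that fix the members commute with the operators -/
theorem comm_of_fix (ho : ∀ i, D.odd (D.typ i)) (a1 : Alg1) {x : Matrix I I ℂ} (hx : IsG D x)
    (hfix : ∀ L u, At L u → gT x u = u) {z : Ten I 2} (hz : At 2 z) :
    x * opM D z = opM D z * x := by
  obtain ⟨-, -, h3⟩ := a1.G_inv D x hx
  have h1 := QS.opM_gT ho a1 hx z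
  rw [hfix 2 z hz] at h1
  conv_rhs => rw [h1]
  rw [Matrix.mul_assoc, h3, Matrix.mul_one]

theorem comm_endS {x : Matrix I I ℂ} (h : ∀ z, At 2 z → x * opM D z = opM D z * x)
    {A : Matrix I I ℂ} (hA : A ∈ endS D At) : x * A = A * x := by
  unfold endS at hA
  induction hA using Submodule.span_induction with
  | mem A hA =>
    obtain ⟨z, hz, rfl⟩ := hA
    exact h z hz
  | zero => rw [Matrix.mul_zero, Matrix.zero_mul]
  | add a b _ _ ha hb => rw [Matrix.mul_add, Matrix.add_mul, ha, hb]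
  | smul c a _ ha => rw [Matrix.mul_smul, Matrix.smul_mul, ha]

/-- **The components in the first slot.** If the vectors of the first slot are fixed by the
matrices `p s`, which commute with the operators, then the tensor is `0`, if no stable subspace
except `0` is fixed by the `p s`. -/
theorem tor (a1 : Alg1) (S : ASys D At) (ho : ∀ i, D.odd (D.typ i))
    (he : ∀ i j, D.typ i = D.typ j) (Γ : Set (Matrix I I ℂ)) (grp : ∀ x ∈ Γ, IsG D x)
    (gfix : ∀ x ∈ Γ, ∀ L u, At L u → gT x u = u) {J : Type*} {p : J → Matrix I I ℂ}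
    (hpc : ∀ s z, At 2 z → p s * opM D z = opM D z * p s)
    (bad : ∀ U : Submodule ℂ (I → ℂ), StabU D At Γ U → (∀ s, ∀ x ∈ U, (p s).mulVec x = x) → U = ⊥)
    {n : ℕ} {u : Ten I (1 + n)} (hu : u ∈ CA At (1 + n))
    (hps : ∀ s b, (p s).mulVec (slc u b) = slc u b) : u = 0 := by
  obtain ⟨U, hU⟩ : ∃ U : Submodule ℂ (I → ℂ), U = Submodule.span ℂ
      {v | ∃ A ∈ endS D At, ∃ b : Fin n → I, v = A.mulVec (slc u b)} := ⟨_, rfl⟩
  have hgen : ∀ A ∈ endS D At, ∀ b, A.mulVec (slc u b) ∈ U := fun A hA b => by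
    rw [hU]
    exact Submodule.subset_span ⟨A, hA, b, rfl⟩
  have hle : ∀ (T : (I → ℂ) →ₗ[ℂ] (I → ℂ)) (V : Submodule ℂ (I → ℂ)),
      (∀ A ∈ endS D At, ∀ b, T (A.mulVec (slc u b)) ∈ V) → U ≤ V.comap T := by
    intro T V h
    rw [hU, Submodule.span_le]
    rintro _ ⟨A, hA, b, rfl⟩
    exact h A hA b
  -- fixed by `p`
  have hpU : ∀ s, ∀ x ∈ U, (p s).mulVec x = x := by
    intro s x hx
    have h1 := hle ((Matrix.toLin' (p s)) - LinearMap.id) ⊥ (fun A hA b => by
      rw [Submodule.mem_bot, LinearMap.sub_apply, Matrix.toLin'_apply, LinearMap.id_apply,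
        Matrix.mulVec_mulVec, comm_endS (hpc s) hA, ← Matrix.mulVec_mulVec, hps, sub_self]) hx
    rw [Submodule.mem_comap, Submodule.mem_bot, LinearMap.sub_apply, Matrix.toLin'_apply,
      LinearMap.id_apply, sub_eq_zero] at h1
    exact h1
  -- the symmetries
  have hfixu : ∀ x ∈ Γ, gT x u = u := fun x hx => gT_fix (fun L u => gfix x hx L u) hu
  have hx1 : ∀ x ∈ Γ, ∀ v ∈ U, x.mulVec v ∈ U ∧ (x⁻¹).mulVec v ∈ U := by
    intro x hx v hv
    obtain ⟨-, h2, h3⟩ := a1.G_inv D x (grp x hx)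
    have hc : ∀ A ∈ endS D At, x * A = A * x := fun A hA =>
      comm_endS (fun z hz => comm_of_fix ho a1 (grp x hx) (gfix x hx) hz) hA
    have hc' : ∀ A ∈ endS D At, x⁻¹ * A = A * x⁻¹ := by
      intro A hA
      calc x⁻¹ * A = x⁻¹ * A * (x * x⁻¹) := by rw [h2, Matrix.mul_one]
        _ = x⁻¹ * (A * x) * x⁻¹ := by noncomm_ring
        _ = x⁻¹ * (x * A) * x⁻¹ := by rw [hc A hA]
        _ = (x⁻¹ * x) * A * x⁻¹ := by noncomm_ring
        _ = _ := by rw [h3, Matrix.one_mul]
    have key : ∀ y y' : Matrix I I ℂ, y * y' = 1 → gT y' u = u →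
        (∀ A ∈ endS D At, y * A = A * y) → ∀ v ∈ U, y.mulVec v ∈ U := by
      intro y y' hyy hy' hyc v hv
      refine hle (Matrix.toLin' y) U (fun A hA b => ?_) hv
      rw [Matrix.toLin'_apply, Matrix.mulVec_mulVec, hyc A hA, ← Matrix.mulVec_mulVec]
      have h4 := slc_gT y' u b
      rw [hy'] at h4
      rw [h4, Matrix.mulVec_sum, Matrix.mulVec_sum]
      refine Submodule.sum_mem _ fun b' _ => ?_
      rw [Matrix.mulVec_smul, Matrix.mulVec_smul, Matrix.mulVec_mulVec (M := y), hyy,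
        Matrix.one_mulVec]
      exact Submodule.smul_mem _ _ (hgen A hA b')
    have hfi : gT x⁻¹ u = u := by
      have h5 := hfixu x hx
      conv_lhs => rw [← h5]
      rw [← gT_mul, h3, gT_one]
    exact ⟨key x x⁻¹ h2 hfi hc v hv, key x⁻¹ x h3 (hfixu x hx) hc' v hv⟩
  have hst : StabU D At Γ U := by
    refine ⟨fun z hz v hv => ?_, ?_⟩
    · refine hle (Matrix.toLin' (opM D z)) U (fun A hA b => ?_) hv
      rw [Matrix.toLin'_apply, Matrix.mulVec_mulVec]
      exact hgen _ (mul_mem_endS S ho he (Submodule.subset_span ⟨z, hz, rfl⟩) hA) b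
    · refine (Set.finite_singleton U).subset ?_
      rintro _ ⟨x, hx, rfl⟩
      rw [Set.mem_singleton_iff]
      apply le_antisymm
      · rintro _ ⟨v, hv, rfl⟩
        exact (hx1 x hx v hv).1
      · intro v hv
        obtain ⟨-, h2, -⟩ := a1.G_inv D x (grp x hx)
        refine ⟨(x⁻¹).mulVec v, (hx1 x hx v hv).2, ?_⟩
        rw [Matrix.toLin'_apply, Matrix.mulVec_mulVec, h2, Matrix.one_mulVec]
  have hbot := bad U hst hpU
  refine slc_zero fun b => ?_
  have h1 := hgen 1 (cen_one S he).mem b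
  rw [hbot, Submodule.mem_bot, Matrix.one_mulVec] at h1
  exact h1

end Pool.Agent.Lib.MP_361a6f_ag.FL.E.Inj
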